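import Mathlib
import Pool.Agent.Y813.RL.Bf

/-!
# Representatives of the discriminant group and the finite Fourier transform
-/

set_option autoImplicit false

open Finset Complex

namespace Pool.Agent.U578.RL

open Pool.Agent.Y813.RL

noncomputable section

variable {A : Matrix (Fin 20) (Fin 20) ℤ}

/-- the real matrix -/
abbrev rM (A : Matrix (Fin 20) (Fin 20) ℤ) : Matrix (Fin 20) (Fin 20) ℝ :=
  A.map (Int.cast : ℤ → ℝ)

/-- the real vector -/
abbrev rV (v : Fin 20 → ℤ) : Fin 20 → ℝ := fun i => (v i : ℝ)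

theorem bf_eq_dot (x y : Fin 20 → ℝ) : bf A x y = x ⬝ᵥ (rM A).mulVec y := by
  unfold bf dotProduct Matrix.mulVec dotProduct
  refine sum_congr rfl fun i _ => ?_
  rw [mul_sum]
  refine sum_congr rfl fun j _ => ?_
  simp only [Matrix.map_apply]
  ring

theorem posDef_rM (h : PosSymm A) : (rM A).PosDef := by
  refine Matrix.PosDef.of_dotProduct_mulVec_pos ?_ ?_
  · rw [Matrix.IsHermitian, Matrix.conjTranspose_eq_transpose_of_trivial]
    have := h.symm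
    rw [Matrix.IsSymm] at this
    rw [← Matrix.transpose_map, this]
  · intro x hx
    have := h.pos x hx
    rw [bf_eq_dot] at this
    simpa using this

theorem det_rM : (rM A).det = (A.det : ℝ) := by
  have := (Int.castRingHom ℝ).map_det A
  simp only [RingHom.mapMatrix_apply] at this
  exact this.symm

theorem det_pos (h : PosSymm A) : 0 < A.det := by
  have := (posDef_rM h).det_pos
  rw [det_rM] at this
  exact_mod_cast this

theorem isUnit_det (h : PosSymm A) : IsUnit (rM A).det := by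
  rw [isUnit_iff_ne_zero]
  exact (posDef_rM h).det_pos.ne'

theorem bd_eq (μ ν : Fin 20 → ℤ) : bd A μ ν = rV μ ⬝ᵥ (rM A)⁻¹.mulVec (rV ν) := rfl

theorem rV_add (μ ν : Fin 20 → ℤ) : rV (μ + ν) = rV μ + rV ν := by
  funext i; simp [rV]

theorem rV_neg (μ : Fin 20 → ℤ) : rV (-μ) = -rV μ := by
  funext i; simp [rV]

theorem rV_mulVec (v : Fin 20 → ℤ) : rV (A.mulVec v) = (rM A).mulVec (rV v) := by
  funext i
  simp [rV, Matrix.mulVec, dotProduct]

theorem bd_add_left (μ μ' ν : Fin 20 → ℤ) : bd A (μ + μ') ν = bd A μ ν + bd A μ' ν := by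
  rw [bd_eq, bd_eq, bd_eq, rV_add, add_dotProduct]

theorem bd_add_right (μ ν ν' : Fin 20 → ℤ) : bd A μ (ν + ν') = bd A μ ν + bd A μ ν' := by
  rw [bd_eq, bd_eq, bd_eq, rV_add, Matrix.mulVec_add, dotProduct_add]

theorem bd_neg_left (μ ν : Fin 20 → ℤ) : bd A (-μ) ν = -bd A μ ν := by
  rw [bd_eq, bd_eq, rV_neg, neg_dotProduct]

theorem bd_neg_right (μ ν : Fin 20 → ℤ) : bd A μ (-ν) = -bd A μ ν := by
  rw [bd_eq, bd_eq, rV_neg, Matrix.mulVec_neg, dotProduct_neg]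

theorem bd_zero_right (μ : Fin 20 → ℤ) : bd A μ 0 = 0 := by
  have := bd_add_right (A := A) μ 0 0
  rw [add_zero] at this
  linarith

theorem bd_sub_right (μ ν ν' : Fin 20 → ℤ) : bd A μ (ν - ν') = bd A μ ν - bd A μ ν' := by
  rw [sub_eq_add_neg, bd_add_right, bd_neg_right, ← sub_eq_add_neg]

theorem inv_mulVec (h : PosSymm A) (v : Fin 20 → ℤ) :
    (rM A)⁻¹.mulVec (rV (A.mulVec v)) = rV v := by
  rw [rV_mulVec, Matrix.mulVec_mulVec, Matrix.nonsing_inv_mul _ (isUnit_det h), Matrix.one_mulVec]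

theorem bd_comm (h : PosSymm A) (μ ν : Fin 20 → ℤ) : bd A μ ν = bd A ν μ := by
  rw [bd_eq, bd_eq, Matrix.dotProduct_mulVec, ← Matrix.mulVec_transpose, dotProduct_comm]
  congr 2
  rw [Matrix.transpose_nonsing_inv]
  congr 1
  have := h.symm
  rw [Matrix.IsSymm] at this
  rw [← Matrix.transpose_map, this]

theorem bd_mulVec_right (h : PosSymm A) (μ v : Fin 20 → ℤ) :
    bd A μ (A.mulVec v) = ((∑ i, μ i * v i : ℤ) : ℝ) := by
  rw [bd_eq, inv_mulVec h]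
  simp [dotProduct, rV]

theorem bd_mulVec_left (h : PosSymm A) (μ v : Fin 20 → ℤ) :
    bd A (A.mulVec v) μ = ((∑ i, μ i * v i : ℤ) : ℝ) := by
  rw [bd_comm h, bd_mulVec_right h]

theorem ee_add (x y : ℂ) : ee (x + y) = ee x * ee y := by
  unfold ee; rw [← Complex.exp_add]; congr 1; ring

theorem ee_int (n : ℤ) : ee (n : ℂ) = 1 := by
  unfold ee
  rw [Complex.exp_eq_one_iff]
  exact ⟨n, by ring⟩

theorem ee_zero : ee 0 = 1 := by simp [ee]

theorem norm_ee_real (x : ℝ) : ‖ee (x : ℂ)‖ = 1 := by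
  unfold ee
  rw [show (2 * Real.pi * Complex.I * x : ℂ) = ((2 * Real.pi * x : ℝ) : ℂ) * Complex.I by
    push_cast; ring]
  exact Complex.norm_exp_ofReal_mul_I _

theorem conj_ee_real (x : ℝ) : (starRingEnd ℂ) (ee (x : ℂ)) = ee (-(x : ℂ)) := by
  unfold ee
  rw [← Complex.exp_conj]
  congr 1
  simp only [map_mul, Complex.conj_ofReal, Complex.conj_I, map_ofNat]
  ring

/-- `ee x = 1` for real `x` only if `x` is an integer -/
theorem ee_eq_one {x : ℝ} (h : ee (x : ℂ) = 1) : ∃ n : ℤ, x = n := by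
  unfold ee at h
  rw [Complex.exp_eq_one_iff] at h
  obtain ⟨n, hn⟩ := h
  refine ⟨n, ?_⟩
  have h2 : (2 * Real.pi * Complex.I : ℂ) ≠ 0 := by
    simp [Real.pi_ne_zero]
  have : (x : ℂ) = n := by
    apply mul_left_cancel₀ h2
    rw [hn]; ring
  exact_mod_cast this

/-! ### Representatives -/

/-- invariance modulo `A Z^20` -/
def Per (A : Matrix (Fin 20) (Fin 20) ℤ) {E : Type*} (g : (Fin 20 → ℤ) → E) : Prop :=
  ∀ μ v, g (μ + A.mulVec v) = g μ

theorem reps_mem {R : Finset (Fin 20 → ℤ)} (hR : IsReps A R) (μ : Fin 20 → ℤ) :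
    ∃ ρ ∈ R, ∃ v : Fin 20 → ℤ, μ = ρ + A.mulVec v := by
  obtain ⟨ρ, ⟨h1, h2⟩, _⟩ := hR μ
  exact ⟨ρ, h1, h2⟩

/-- the representative -/
def rep {R : Finset (Fin 20 → ℤ)} (hR : IsReps A R) (μ : Fin 20 → ℤ) : Fin 20 → ℤ :=
  (reps_mem hR μ).choose

theorem rep_mem {R : Finset (Fin 20 → ℤ)} (hR : IsReps A R) (μ : Fin 20 → ℤ) :
    rep hR μ ∈ R := (reps_mem hR μ).choose_spec.1

theorem rep_spec {R : Finset (Fin 20 → ℤ)} (hR : IsReps A R) (μ : Fin 20 → ℤ) :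
    ∃ v : Fin 20 → ℤ, μ = rep hR μ + A.mulVec v := (reps_mem hR μ).choose_spec.2

theorem rep_unique {R : Finset (Fin 20 → ℤ)} (hR : IsReps A R) {μ ρ ρ' : Fin 20 → ℤ}
    (h1 : ρ ∈ R) (h2 : ∃ v : Fin 20 → ℤ, μ = ρ + A.mulVec v)
    (h3 : ρ' ∈ R) (h4 : ∃ v : Fin 20 → ℤ, μ = ρ' + A.mulVec v) : ρ = ρ' := by
  obtain ⟨_, _, h⟩ := hR μ
  rw [h ρ ⟨h1, h2⟩, h ρ' ⟨h3, h4⟩]

theorem rep_eq {R : Finset (Fin 20 → ℤ)} (hR : IsReps A R) {μ ρ : Fin 20 → ℤ}
    (h1 : ρ ∈ R) (h2 : ∃ v : Fin 20 → ℤ, μ = ρ + A.mulVec v) : rep hR μ = ρ :=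
  rep_unique hR (rep_mem hR μ) (rep_spec hR μ) h1 h2

theorem sum_shift {R : Finset (Fin 20 → ℤ)} (hR : IsReps A R) {g : (Fin 20 → ℤ) → ℂ}
    (hg : Per A g) (μ₀ : Fin 20 → ℤ) : ∑ ρ ∈ R, g (ρ + μ₀) = ∑ ρ ∈ R, g ρ := by
  refine Finset.sum_nbij' (fun ρ => rep hR (ρ + μ₀)) (fun ρ => rep hR (ρ - μ₀)) ?_ ?_ ?_ ?_ ?_
  · intro ρ _; exact rep_mem hR _
  · intro ρ _; exact rep_mem hR _
  · intro ρ hρ
    obtain ⟨v, hv⟩ := rep_spec hR (ρ + μ₀)
    apply rep_eq hR hρ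
    refine ⟨-v, ?_⟩
    rw [Matrix.mulVec_neg]
    have : rep hR (ρ + μ₀) = ρ + μ₀ - A.mulVec v := eq_sub_of_add_eq hv.symm
    rw [this]; abel
  · intro ρ hρ
    obtain ⟨v, hv⟩ := rep_spec hR (ρ - μ₀)
    apply rep_eq hR hρ
    refine ⟨-v, ?_⟩
    rw [Matrix.mulVec_neg]
    have : rep hR (ρ - μ₀) = ρ - μ₀ - A.mulVec v := eq_sub_of_add_eq hv.symm
    rw [this]; abel
  · intro ρ _
    obtain ⟨v, hv⟩ := rep_spec hR (ρ + μ₀)
    calc g (ρ + μ₀) = g (rep hR (ρ + μ₀) + A.mulVec v) := by rw [← hv]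
      _ = _ := hg _ _

theorem per_ee_left (h : PosSymm A) (ν : Fin 20 → ℤ) :
    Per A (fun μ => ee (-(bd A μ ν : ℂ))) := by
  intro μ v
  simp only
  rw [bd_add_left, bd_mulVec_left h]
  push_cast
  rw [neg_add, ee_add]
  have := ee_int (-∑ i, ν i * v i)
  push_cast at this
  rw [this, mul_one]

theorem per_ee_right (h : PosSymm A) (μ : Fin 20 → ℤ) :
    Per A (fun ν => ee (-(bd A μ ν : ℂ))) := by
  intro ν v
  simp only
  rw [bd_add_right, bd_mulVec_right h]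
  push_cast
  rw [neg_add, ee_add]
  have := ee_int (-∑ i, μ i * v i)
  push_cast at this
  rw [this, mul_one]

/-- orthogonality of characters -/
theorem charsum (h : PosSymm A) {R : Finset (Fin 20 → ℤ)} (hR : IsReps A R) (ν : Fin 20 → ℤ)
    (hν : ¬ ∃ v : Fin 20 → ℤ, ν = A.mulVec v) : ∑ μ ∈ R, ee (-(bd A μ ν : ℂ)) = 0 := by
  -- a coordinate with non-integral value
  have h1 : ∃ i, ∀ n : ℤ, ((rM A)⁻¹.mulVec (rV ν)) i ≠ n := by
    by_contra hcon
    push Not at hcon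
    choose v hv using hcon
    apply hν
    refine ⟨v, ?_⟩
    have h2 : (rM A)⁻¹.mulVec (rV ν) = rV v := funext hv
    have h3 : rV ν = rV (A.mulVec v) := by
      rw [rV_mulVec, ← h2, Matrix.mulVec_mulVec, Matrix.mul_nonsing_inv _ (isUnit_det h),
        Matrix.one_mulVec]
    funext i
    have := congrFun h3 i
    exact_mod_cast this
  obtain ⟨i, hi⟩ := h1
  set μ₀ : Fin 20 → ℤ := Pi.single i 1 with hμ₀
  have h2 : bd A μ₀ ν = ((rM A)⁻¹.mulVec (rV ν)) i := by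
    rw [bd_eq]
    have : rV μ₀ = Pi.single i 1 := by
      funext j
      simp only [rV, hμ₀]
      by_cases hj : j = i
      · subst hj; simp
      · simp [hj]
    rw [this, single_dotProduct, one_mul]
  have h3 : ee (-(bd A μ₀ ν : ℂ)) ≠ 1 := by
    intro hcon
    have e : (-(bd A μ₀ ν : ℂ)) = ((-(bd A μ₀ ν) : ℝ) : ℂ) := by push_cast; rfl
    rw [e] at hcon
    obtain ⟨n, hn⟩ := ee_eq_one hcon
    apply hi (-n)
    rw [← h2]
    push_cast
    linarith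
  have h4 := sum_shift hR (per_ee_left h ν) μ₀
  simp only [bd_add_left] at h4
  have h5 : ∀ ρ, ee (-((bd A ρ ν + bd A μ₀ ν : ℝ) : ℂ)) =
      ee (-(bd A μ₀ ν : ℂ)) * ee (-(bd A ρ ν : ℂ)) := by
    intro ρ
    push_cast
    rw [neg_add, ee_add]; ring
  simp only [h5] at h4
  rw [← mul_sum] at h4
  have h6 : (ee (-(bd A μ₀ ν : ℂ)) - 1) * ∑ μ ∈ R, ee (-(bd A μ ν : ℂ)) = 0 := by
    rw [sub_mul, one_mul, h4, sub_self]
  rcases mul_eq_zero.1 h6 with h7 | h7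
  · exact absurd (sub_eq_zero.1 h7) h3
  · exact h7

theorem charsum_one (h : PosSymm A) {R : Finset (Fin 20 → ℤ)} (ν : Fin 20 → ℤ)
    (hν : ∃ v : Fin 20 → ℤ, ν = A.mulVec v) : ∑ μ ∈ R, ee (-(bd A μ ν : ℂ)) = R.card := by
  obtain ⟨v, rfl⟩ := hν
  rw [sum_congr rfl (g := fun _ => (1 : ℂ))]
  · simp
  · intro μ _
    have := per_ee_right h μ 0 v
    simp only [zero_add] at this
    rw [this, bd_zero_right]
    simp [ee]

/-- unitarity of the finite Fourier transform, in terms of the number of representatives -/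
theorem unitary_card (h : PosSymm A) {R : Finset (Fin 20 → ℤ)} (hR : IsReps A R)
    (a : (Fin 20 → ℤ) → ℂ) :
    ∑ μ ∈ R, ‖∑ ρ ∈ R, ee (-(bd A μ ρ : ℂ)) * a ρ‖ ^ 2 = (R.card : ℝ) * ∑ ρ ∈ R, ‖a ρ‖ ^ 2 := by
  have key : ((∑ μ ∈ R, ‖∑ ρ ∈ R, ee (-(bd A μ ρ : ℂ)) * a ρ‖ ^ 2 : ℝ) : ℂ) =
      (((R.card : ℝ) * ∑ ρ ∈ R, ‖a ρ‖ ^ 2 : ℝ) : ℂ) := by
    push_cast
    have h1 : ∀ μ ∈ R, (‖∑ ρ ∈ R, ee (-(bd A μ ρ : ℂ)) * a ρ‖ : ℂ) ^ 2 =
        ∑ ρ ∈ R, ∑ ρ' ∈ R, a ρ * (starRingEnd ℂ) (a ρ') * ee (-(bd A μ (ρ - ρ') : ℂ)) := by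
      intro μ _
      rw [← Complex.mul_conj', map_sum, sum_mul_sum]
      refine sum_congr rfl fun ρ _ => sum_congr rfl fun ρ' _ => ?_
      rw [map_mul]
      have e1 : (starRingEnd ℂ) (ee (-(bd A μ ρ' : ℂ))) = ee ((bd A μ ρ' : ℂ)) := by
        have := conj_ee_real (-(bd A μ ρ'))
        push_cast at this
        rw [this, neg_neg]
      rw [e1, bd_sub_right]
      push_cast
      rw [neg_sub, sub_eq_add_neg, ee_add]
      ring
    rw [sum_congr rfl h1, sum_comm]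
    have h2 : ∀ ρ ∈ R, ∑ μ ∈ R, ∑ ρ' ∈ R, a ρ * (starRingEnd ℂ) (a ρ') *
        ee (-(bd A μ (ρ - ρ') : ℂ)) = (R.card : ℂ) * (‖a ρ‖ : ℂ) ^ 2 := by
      intro ρ hρ
      rw [sum_comm]
      simp only [← mul_sum]
      rw [sum_eq_single ρ]
      · rw [charsum_one h (ρ - ρ) ⟨0, by simp⟩, Complex.mul_conj']
        ring
      · intro ρ' hρ' hne
        rw [charsum h hR, mul_zero]
        rintro ⟨v, hv⟩
        apply hne
        refine rep_unique hR (μ := ρ) hρ' ⟨v, ?_⟩ hρ ⟨0, by simp⟩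
        rw [← hv]; abel
      · intro hcon; exact absurd hρ hcon
    rw [sum_congr rfl h2, mul_sum]
  exact_mod_cast key

/-! ### The number of representatives -/

/-- the lattice `A Z^20` -/
def lat (A : Matrix (Fin 20) (Fin 20) ℤ) : Submodule ℤ (Fin 20 → ℤ) := LinearMap.range A.mulVecLin

theorem mem_lat (ν : Fin 20 → ℤ) : ν ∈ lat A ↔ ∃ v : Fin 20 → ℤ, ν = A.mulVec v := by
  simp [lat, LinearMap.mem_range, eq_comm]

theorem inj_mulVec (h : PosSymm A) : Function.Injective A.mulVecLin := by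
  intro v w hvw
  have h1 : A.mulVec v = A.mulVec w := hvw
  have h2 : rV v = rV w := by rw [← inv_mulVec h v, h1, inv_mulVec h w]
  funext i
  have := congrFun h2 i
  exact_mod_cast this

theorem card_quot (h : PosSymm A) : (Nat.card ((Fin 20 → ℤ) ⧸ lat A) : ℤ) = A.det := by
  have h1 : (LinearMap.det A.mulVecLin).natAbs = Nat.card ((Fin 20 → ℤ) ⧸ lat A) :=
    Eq.trans (by congr 2)
      (Submodule.natAbs_det_equiv (lat A) (LinearEquiv.ofInjective A.mulVecLin (inj_mulVec h)))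
  rw [← h1]
  have h3 : LinearMap.det A.mulVecLin = A.det := by
    rw [← Matrix.toLin'_apply', LinearMap.det_toLin']
  rw [h3]
  rw [Int.natAbs_of_nonneg (det_pos h).le]

theorem card_reps (h : PosSymm A) {R : Finset (Fin 20 → ℤ)} (hR : IsReps A R) :
    (R.card : ℤ) = A.det := by
  rw [← card_quot h]
  congr 1
  rw [← Nat.card_eq_finsetCard]
  apply Nat.card_congr
  refine Equiv.ofBijective (fun ρ : R => (Submodule.Quotient.mk (ρ : Fin 20 → ℤ) :
    (Fin 20 → ℤ) ⧸ lat A)) ⟨?_, ?_⟩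
  · rintro ⟨ρ, hρ⟩ ⟨ρ', hρ'⟩ he
    simp only [Submodule.Quotient.eq] at he
    rw [mem_lat] at he
    obtain ⟨v, hv⟩ := he
    apply Subtype.ext
    refine rep_unique hR (μ := ρ) hρ ⟨0, by simp⟩ hρ' ⟨v, ?_⟩
    rw [← hv]; abel
  · intro q
    obtain ⟨μ, rfl⟩ := Submodule.Quotient.mk_surjective _ q
    refine ⟨⟨rep hR μ, rep_mem hR μ⟩, ?_⟩
    simp only [Submodule.Quotient.eq]
    rw [mem_lat]
    obtain ⟨v, hv⟩ := rep_spec hR μ
    refine ⟨-v, ?_⟩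
    rw [Matrix.mulVec_neg]
    have : rep hR μ = μ - A.mulVec v := by
      conv_rhs => rw [hv]
      abel
    rw [this]; abel

theorem exists_reps (h : PosSymm A) : ∃ R : Finset (Fin 20 → ℤ), IsReps A R := by
  classical
  have hfin : Finite ((Fin 20 → ℤ) ⧸ lat A) := by
    apply Nat.finite_of_card_ne_zero
    have := card_quot h
    have := det_pos h
    omega
  have := Fintype.ofFinite ((Fin 20 → ℤ) ⧸ lat A)
  refine ⟨Finset.univ.image (fun q : (Fin 20 → ℤ) ⧸ lat A => Quotient.out q), fun μ => ?_⟩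
  refine ⟨Quotient.out (Submodule.Quotient.mk μ : (Fin 20 → ℤ) ⧸ lat A), ⟨?_, ?_⟩, ?_⟩
  · exact Finset.mem_image_of_mem _ (Finset.mem_univ _)
  · have h1 : (Submodule.Quotient.mk (Quotient.out (Submodule.Quotient.mk μ :
        (Fin 20 → ℤ) ⧸ lat A)) : (Fin 20 → ℤ) ⧸ lat A) = Submodule.Quotient.mk μ :=
      Quotient.out_eq _
    rw [eq_comm, Submodule.Quotient.eq, mem_lat] at h1
    obtain ⟨v, hv⟩ := h1
    exact ⟨v, by rw [← hv]; abel⟩
  · rintro ρ ⟨h1, v, hv⟩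
    rw [Finset.mem_image] at h1
    obtain ⟨q, _, hq⟩ := h1
    have h2 : (Submodule.Quotient.mk ρ : (Fin 20 → ℤ) ⧸ lat A) = q := by
      rw [← hq]; exact Quotient.out_eq _
    have h3 : (Submodule.Quotient.mk ρ : (Fin 20 → ℤ) ⧸ lat A) = Submodule.Quotient.mk μ := by
      rw [eq_comm, Submodule.Quotient.eq, mem_lat]
      exact ⟨v, by rw [hv]; abel⟩
    rw [← h3, h2, hq]

/-- unitarity of the finite Fourier transform for an arbitrary system of representatives -/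
theorem unitary_det (h : PosSymm A) {R : Finset (Fin 20 → ℤ)} (hR : IsReps A R)
    (a : (Fin 20 → ℤ) → ℂ) :
    ∑ μ ∈ R, ‖∑ ρ ∈ R, ee (-(bd A μ ρ : ℂ)) * a ρ‖ ^ 2 =
      (A.det : ℝ) * ∑ ρ ∈ R, ‖a ρ‖ ^ 2 := by
  rw [unitary_card h hR]
  have := card_reps h hR
  have h2 : ((R.card : ℤ) : ℝ) = (A.det : ℝ) := by rw [this]
  rw [← h2]
  simp

theorem jobFinFour : JobFinFour := by
  intro A h
  refine ⟨det_pos h, ?_⟩
  obtain ⟨R, hR⟩ := exists_reps h
  exact ⟨R, hR, card_reps h hR, unitary_det h hR⟩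

end

end Pool.Agent.U578.RL
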