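import Mathlib
import Pool.Agent.Y813.RL.Stm

/-!
# The Eisenstein series of weight 2 and 4 as functions on the complex plane
-/

set_option autoImplicit false

open UpperHalfPlane hiding I
open Real Complex Filter Topology Set Function
open scoped MatrixGroups ModularForm Manifold

namespace Pool.Agent.U578.RL

open Pool.Agent.Y813.RL

noncomputable section

/-- the upper half plane -/
abbrev Up : Set ℂ := {τ : ℂ | 0 < τ.im}

theorem isOpen_Up : IsOpen Up := isOpen_lt continuous_const Complex.continuous_im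

/-- `E_2` -/
def E2c (τ : ℂ) : ℂ := EisensteinSeries.E2 (ofComplex τ)

/-- `E_4` -/
def E4c (τ : ℂ) : ℂ := ModularForm.E₄ (ofComplex τ)

theorem E2c_diff : DifferentiableOn ℂ E2c Up :=
  UpperHalfPlane.mdifferentiable_iff.1 E2_mdifferentiable

theorem E4c_diff : DifferentiableOn ℂ E4c Up :=
  UpperHalfPlane.mdifferentiable_iff.1 (ModularFormClass.holo ModularForm.E₄)

theorem ne_zero_of_up {τ : ℂ} (h : τ ∈ Up) : τ ≠ 0 := by
  rintro rfl
  simp [Up] at h

theorem neg_inv_mem {τ : ℂ} (h : τ ∈ Up) : -1 / τ ∈ Up := by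
  have h0 : 0 < Complex.normSq τ := Complex.normSq_pos.2 (ne_zero_of_up h)
  have h1 : 0 < τ.im := h
  change 0 < (-1 / τ).im
  rw [show -1 / τ = -(τ⁻¹) by rw [neg_div, one_div], Complex.neg_im, Complex.inv_im]
  have : 0 < τ.im / Complex.normSq τ := by positivity
  rw [neg_div, neg_neg]
  exact this

theorem add_one_mem {τ : ℂ} (h : τ ∈ Up) : τ + 1 ∈ Up := by
  change 0 < (τ + 1).im
  simpa using h

theorem ofComplex_S {τ : ℂ} (h : τ ∈ Up) : ofComplex (-1 / τ) = ModularGroup.S • (ofComplex τ) := by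
  rw [ofComplex_apply_of_im_pos (neg_inv_mem h), ofComplex_apply_of_im_pos h, modular_S_smul]
  ext
  simp [neg_div, ← inv_neg]

theorem ofComplex_T {τ : ℂ} (h : τ ∈ Up) : ofComplex (τ + 1) = ModularGroup.T • (ofComplex τ) := by
  rw [ofComplex_apply_of_im_pos (add_one_mem h), ofComplex_apply_of_im_pos h, modular_T_smul]
  ext
  simp [add_comm]

theorem coe_ofComplex {τ : ℂ} (h : τ ∈ Up) : ((ofComplex τ : ℍ) : ℂ) = τ := by
  rw [ofComplex_apply_of_im_pos h]

theorem E2c_S {τ : ℂ} (h : τ ∈ Up) :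
    E2c (-1 / τ) = τ ^ 2 * E2c τ + 6 * τ / (Real.pi * Complex.I) := by
  have h0 := ne_zero_of_up h
  have h1 := congrFun (EisensteinSeries.E2_slash_action ModularGroup.S) (ofComplex τ)
  rw [ModularForm.SL_slash_apply, ModularGroup.denom_S] at h1
  simp only [Pi.sub_apply, Pi.smul_apply, smul_eq_mul, EisensteinSeries.D2_S, coe_ofComplex h,
    riemannZeta_two] at h1
  unfold E2c
  rw [ofComplex_S h]
  have h2 : EisensteinSeries.E2 (ModularGroup.S • ofComplex τ) = τ ^ 2 *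
      (EisensteinSeries.E2 (ofComplex τ) - 1 / (2 * (Real.pi ^ 2 / 6)) *
        (2 * Real.pi * Complex.I / τ)) := by
    rw [← h1]
    rw [show τ ^ (-(2 : ℤ)) = (τ ^ 2)⁻¹ by rw [zpow_neg]; norm_cast]
    field_simp
  rw [h2]
  have hpi : (Real.pi : ℂ) ≠ 0 := by exact_mod_cast Real.pi_ne_zero
  field_simp
  have hI := Complex.I_sq
  linear_combination (-6) * hI

theorem E2c_T {τ : ℂ} (h : τ ∈ Up) : E2c (τ + 1) = E2c τ := by
  have h1 := congrFun (EisensteinSeries.E2_slash_action ModularGroup.T) (ofComplex τ)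
  rw [ModularForm.SL_slash_apply] at h1
  have hd : denom ModularGroup.T (ofComplex τ) = 1 := by
    rw [ModularGroup.denom_apply]; simp [ModularGroup.T]
  rw [hd] at h1
  simp only [Pi.sub_apply, Pi.smul_apply, smul_eq_mul, EisensteinSeries.D2_T, one_zpow, mul_one,
    Pi.zero_apply, mul_zero, sub_zero] at h1
  unfold E2c
  rw [ofComplex_T h]
  exact h1

theorem E4_slash (γ : SL(2, ℤ)) (z : ℍ) :
    ModularForm.E₄ (γ • z) = denom γ z ^ (4 : ℤ) * ModularForm.E₄ z :=
  SlashInvariantForm.slash_action_eqn' (Γ := 𝒮ℒ) ModularForm.E₄ (MonoidHom.mem_range.2 ⟨γ, rfl⟩) z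

theorem E4c_S {τ : ℂ} (h : τ ∈ Up) : E4c (-1 / τ) = τ ^ 4 * E4c τ := by
  unfold E4c
  rw [ofComplex_S h, E4_slash, ModularGroup.denom_S, coe_ofComplex h]
  norm_cast

theorem E4c_T {τ : ℂ} (h : τ ∈ Up) : E4c (τ + 1) = E4c τ := by
  unfold E4c
  have hd : denom ModularGroup.T (ofComplex τ) = 1 := by
    rw [ModularGroup.denom_apply]; simp [ModularGroup.T]
  rw [ofComplex_T h, E4_slash, hd]
  simp

/-! ### q-expansions -/

theorem periodic_comp (F : ℍ → ℂ) (hF : ∀ τ ∈ Up, F (ofComplex (τ + 1)) = F (ofComplex τ)) :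
    Periodic (F ∘ ofComplex) (1 : ℝ) := by
  intro w
  by_cases! hw : 0 < w.im
  · simpa using hF w hw
  · have : (w + (1 : ℝ)).im ≤ 0 := by simpa using hw
    simp only [comp_apply]
    rw [ofComplex_apply_eq_of_im_nonpos this hw]

theorem qParam_eq (τ : ℂ) : Periodic.qParam 1 τ = ee τ := by
  simp [Periodic.qParam, ee]

theorem norm_ee (τ : ℂ) : ‖ee τ‖ = Real.exp (-(2 * Real.pi * τ.im)) := by
  unfold ee
  rw [Complex.norm_exp]
  congr 1
  simp [Complex.mul_re, Complex.mul_im]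

theorem norm_ee_lt {τ : ℂ} (h : τ ∈ Up) : ‖ee τ‖ < 1 := by
  rw [norm_ee, Real.exp_lt_one_iff]
  have : 0 < τ.im := h
  have := Real.pi_pos
  nlinarith [mul_pos this ‹0 < τ.im›]

theorem ee_mem {τ : ℂ} (h : τ ∈ Up) : ee τ ∈ Metric.ball (0 : ℂ) 1 := by
  rw [mem_ball_zero_iff]; exact norm_ee_lt h

/-- a bounded periodic function is a function of `q` -/
theorem qrep (f : ℂ → ℂ) (hd : DifferentiableOn ℂ f Up) (hT : ∀ τ ∈ Up, f (τ + 1) = f τ)
    (hb : ∃ C : ℝ, ∀ τ : ℂ, 1 / 2 ≤ τ.im → ‖f τ‖ ≤ C) :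
    ∃ h : ℂ → ℂ, DifferentiableOn ℂ h (Metric.ball 0 1) ∧ ∀ τ ∈ Up, f τ = h (ee τ) := by
  let F : ℍ → ℂ := fun z => f z
  have h1 : Periodic (F ∘ ofComplex) (1 : ℝ) := by
    apply periodic_comp
    intro τ hτ
    simp only [F]
    rw [coe_ofComplex hτ, coe_ofComplex (add_one_mem hτ), hT τ hτ]
  have h2 : MDiff F := by
    rw [UpperHalfPlane.mdifferentiable_iff]
    refine hd.congr fun τ hτ => ?_
    simp only [comp_apply, F]
    rw [coe_ofComplex hτ]
  have h3 : IsBoundedAtImInfty F := by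
    rw [isBoundedAtImInfty_iff]
    obtain ⟨C, hC⟩ := hb
    exact ⟨C, 1 / 2, fun z hz => hC z hz⟩
  refine ⟨cuspFunction 1 F, differentiableOn_cuspFunction_ball one_pos h1 h2 h3, fun τ hτ => ?_⟩
  have := UpperHalfPlane.eq_cuspFunction (⟨τ, hτ⟩ : ℍ) one_ne_zero h1
  rw [← qParam_eq]
  exact this.symm

/-- `E_2` as a function of `q` -/
def e2 : ℂ → ℂ := cuspFunction 1 EisensteinSeries.E2

/-- `E_4` as a function of `q` -/
def e4 : ℂ → ℂ := cuspFunction 1 ModularForm.E₄

theorem E2_per : Periodic (EisensteinSeries.E2 ∘ ofComplex) (1 : ℝ) :=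
  periodic_comp _ fun _ hτ => E2c_T hτ

theorem E4_per : Periodic (ModularForm.E₄ ∘ ofComplex) (1 : ℝ) :=
  periodic_comp _ fun _ hτ => E4c_T hτ

theorem E4_bdd : IsBoundedAtImInfty ModularForm.E₄ := ModularFormClass.bdd_at_infty _

theorem e2_diff : DifferentiableOn ℂ e2 (Metric.ball 0 1) :=
  differentiableOn_cuspFunction_ball one_pos E2_per E2_mdifferentiable
    EisensteinSeries.isBoundedAtImInfty_E2

theorem e4_diff : DifferentiableOn ℂ e4 (Metric.ball 0 1) :=
  differentiableOn_cuspFunction_ball one_pos E4_per (ModularFormClass.holo ModularForm.E₄)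
    E4_bdd

theorem e2_ee {τ : ℂ} (hτ : τ ∈ Up) : E2c τ = e2 (ee τ) := by
  have := UpperHalfPlane.eq_cuspFunction (⟨τ, hτ⟩ : ℍ) one_ne_zero E2_per
  rw [← qParam_eq]
  unfold E2c e2
  rw [ofComplex_apply_of_im_pos hτ]
  exact this.symm

theorem e4_ee {τ : ℂ} (hτ : τ ∈ Up) : E4c τ = e4 (ee τ) := by
  have := UpperHalfPlane.eq_cuspFunction (⟨τ, hτ⟩ : ℍ) one_ne_zero E4_per
  rw [← qParam_eq]
  unfold E4c e4
  rw [ofComplex_apply_of_im_pos hτ]
  exact this.symm

theorem e2_zero : e2 0 = 1 := by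
  have ha := analyticAt_cuspFunction_zero one_pos E2_per E2_mdifferentiable
    EisensteinSeries.isBoundedAtImInfty_E2
  have hs : ∀ τ : ℍ, HasSum (fun m : ℕ =>
      (if m = 0 then 1 else -24 * (ArithmeticFunction.sigma 1 m : ℂ)) •
        Periodic.qParam 1 (τ : ℂ) ^ m) (EisensteinSeries.E2 τ) := by
    intro τ
    have h2 := EisensteinSeries.hasSum_qExpansion_E2 (z := τ)
    have h3 : Periodic.qParam 1 (τ : ℂ) = Complex.exp (2 * Real.pi * Complex.I * τ) := by
      simp [Periodic.qParam]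
    rw [h3]
    exact h2
  have h1 := UpperHalfPlane.hasFPowerSeriesOnBall_cuspFunction (h := 1)
    (f := EisensteinSeries.E2) one_pos ha hs
  have h2 := h1.hasFPowerSeriesAt.coeff_zero ![]
  unfold e2
  rw [← h2]
  simp [FormalMultilinearSeries.ofScalars]

theorem e4_zero : e4 0 = 1 := by
  have ha := analyticAt_cuspFunction_zero one_pos E4_per
    (ModularFormClass.holo ModularForm.E₄) E4_bdd
  have h1 := EisensteinSeries.E_qExpansion_coeff_zero (k := 4) (by norm_num) (by decide)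
  rw [qExpansion_coeff_zero one_pos ha E4_per] at h1
  unfold e4
  rw [cuspFunction_apply_zero one_pos ha E4_per, ← h1]

end

end Pool.Agent.U578.RL
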