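import Mathlib
import Pool.Agent.U578.RL.Eis

/-!
# The Serre derivative and the operator `D² - E₄ / 18` on functions of weight `-10`
-/

set_option autoImplicit false

open Complex Filter Topology Set

namespace Pool.Agent.U578.RL

open Pool.Agent.Y813.RL

noncomputable section

/-- the Serre derivative of weight `k` -/
def sd (k : ℂ) (f : ℂ → ℂ) (τ : ℂ) : ℂ :=
  (2 * Real.pi * Complex.I)⁻¹ * deriv f τ - k / 12 * E2c τ * f τ

theorem two_pi_I_ne : (2 * Real.pi * Complex.I : ℂ) ≠ 0 := by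
  simp [Real.pi_ne_zero]

theorem diffAt_of {f : ℂ → ℂ} (hf : DifferentiableOn ℂ f Up) {τ : ℂ} (hτ : τ ∈ Up) :
    DifferentiableAt ℂ f τ := (hf τ hτ).differentiableAt (isOpen_Up.mem_nhds hτ)

theorem sd_diff (k : ℂ) {f : ℂ → ℂ} (hf : DifferentiableOn ℂ f Up) :
    DifferentiableOn ℂ (sd k f) Up := by
  unfold sd
  have h1 : DifferentiableOn ℂ (deriv f) Up := hf.deriv isOpen_Up
  exact (h1.const_mul _).sub ((E2c_diff.const_mul _).mul hf)

theorem sd_congr (k : ℂ) {f g : ℂ → ℂ} (h : ∀ τ ∈ Up, f τ = g τ) :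
    ∀ τ ∈ Up, sd k f τ = sd k g τ := by
  intro τ hτ
  have h1 : f =ᶠ[𝓝 τ] g := by
    filter_upwards [isOpen_Up.mem_nhds hτ] with x hx using h x hx
  unfold sd
  rw [h1.deriv_eq, h τ hτ]

theorem sd_sum {ι : Type*} (k : ℂ) (s : Finset ι) (a : ι → ℂ) (f : ι → ℂ → ℂ)
    (hf : ∀ i, DifferentiableOn ℂ (f i) Up) :
    ∀ τ ∈ Up, sd k (fun τ => ∑ i ∈ s, a i * f i τ) τ = ∑ i ∈ s, a i * sd k (f i) τ := by
  intro τ hτ
  unfold sd
  have h1 : deriv (fun τ => ∑ i ∈ s, a i * f i τ) τ = ∑ i ∈ s, a i * deriv (f i) τ := by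
    rw [deriv_fun_sum]
    · apply Finset.sum_congr rfl
      intro i _
      rw [deriv_const_mul _ (diffAt_of (hf i) hτ)]
    · intro i _
      exact (diffAt_of (hf i) hτ).const_mul _
  rw [h1, Finset.mul_sum, Finset.mul_sum, ← Finset.sum_sub_distrib]
  apply Finset.sum_congr rfl
  intro i _
  ring

theorem sd_S (n : ℕ) {f h : ℂ → ℂ} (hh : DifferentiableOn ℂ h Up)
    (hf : ∀ τ ∈ Up, f τ = τ ^ (n + 2) * h (-1 / τ)) :
    ∀ τ ∈ Up, sd (-((n : ℂ) + 2)) f τ = τ ^ n * sd (-((n : ℂ) + 2)) h (-1 / τ) := by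
  intro τ hτ
  have h0 := ne_zero_of_up hτ
  have h1 : HasDerivAt (fun τ : ℂ => -1 / τ) (1 / τ ^ 2) τ := by
    have := (hasDerivAt_inv h0).neg
    have e : (fun τ : ℂ => -1 / τ) = fun τ => -(τ⁻¹) := by funext x; rw [neg_div, one_div]
    rw [e]
    have h2 : (1 : ℂ) / τ ^ 2 = -(-(τ ^ 2)⁻¹) := by rw [neg_neg, one_div]
    rw [h2]
    exact this
  have h2 : HasDerivAt h (deriv h (-1 / τ)) (-1 / τ) := (diffAt_of hh (neg_inv_mem hτ)).hasDerivAt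
  have h3 : HasDerivAt (fun τ : ℂ => h (-1 / τ)) (deriv h (-1 / τ) * (1 / τ ^ 2)) τ :=
    HasDerivAt.comp τ h2 h1
  have h4 : HasDerivAt (fun τ : ℂ => τ ^ (n + 2)) (((n + 2 : ℕ) : ℂ) * τ ^ (n + 1)) τ := by
    simpa using hasDerivAt_pow (n + 2) τ
  have h5 := h4.mul h3
  have h6 : deriv f τ = ((n + 2 : ℕ) : ℂ) * τ ^ (n + 1) * h (-1 / τ) +
      τ ^ (n + 2) * (deriv h (-1 / τ) * (1 / τ ^ 2)) := by
    have h7 : f =ᶠ[𝓝 τ] fun τ => τ ^ (n + 2) * h (-1 / τ) := by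
      filter_upwards [isOpen_Up.mem_nhds hτ] with x hx using hf x hx
    rw [h7.deriv_eq]
    exact h5.deriv
  unfold sd
  rw [h6, hf τ hτ, E2c_S hτ]
  have hpi : (Real.pi : ℂ) ≠ 0 := by exact_mod_cast Real.pi_ne_zero
  have hI := Complex.I_ne_zero
  push_cast
  field_simp
  ring

theorem sd_T (k c : ℂ) {f : ℂ → ℂ}
    (hf : ∀ τ ∈ Up, f (τ + 1) = c * f τ) (hd : DifferentiableOn ℂ f Up) :
    ∀ τ ∈ Up, sd k f (τ + 1) = c * sd k f τ := by
  intro τ hτ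
  have h1 : deriv f (τ + 1) = c * deriv f τ := by
    have e1 : deriv (fun x => f (x + 1)) τ = deriv f (τ + 1) := by
      rw [deriv_comp_add_const]
    have e2 : (fun x => f (x + 1)) =ᶠ[𝓝 τ] fun x => c * f x := by
      filter_upwards [isOpen_Up.mem_nhds hτ] with x hx using hf x hx
    rw [← e1, e2.deriv_eq, deriv_const_mul _ (diffAt_of hd hτ)]
  unfold sd
  rw [h1, hf τ hτ, E2c_T hτ]
  ring

/-- the operator `D² - E₄ / 18` in weight `-10` -/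
def GG (f : ℂ → ℂ) (τ : ℂ) : ℂ := sd (-8) (sd (-10) f) τ - 1 / 18 * E4c τ * f τ

theorem GG_diff {f : ℂ → ℂ} (hf : DifferentiableOn ℂ f Up) : DifferentiableOn ℂ (GG f) Up :=
  (sd_diff _ (sd_diff _ hf)).sub ((E4c_diff.const_mul _).mul hf)

theorem GG_congr {f g : ℂ → ℂ} (h : ∀ τ ∈ Up, f τ = g τ) : ∀ τ ∈ Up, GG f τ = GG g τ := by
  intro τ hτ
  unfold GG
  rw [sd_congr (-8) (sd_congr (-10) h) τ hτ, h τ hτ]

theorem GG_sum {ι : Type*} (s : Finset ι) (a : ι → ℂ) (f : ι → ℂ → ℂ)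
    (hf : ∀ i, DifferentiableOn ℂ (f i) Up) :
    ∀ τ ∈ Up, GG (fun τ => ∑ i ∈ s, a i * f i τ) τ = ∑ i ∈ s, a i * GG (f i) τ := by
  intro τ hτ
  unfold GG
  rw [sd_congr (-8) (sd_sum (-10) s a f hf) τ hτ,
    sd_sum (-8) s a (fun i => sd (-10) (f i)) (fun i => sd_diff _ (hf i)) τ hτ, Finset.mul_sum,
    ← Finset.sum_sub_distrib]
  apply Finset.sum_congr rfl
  intro i _
  ring

theorem GG_S {f h : ℂ → ℂ} (hh : DifferentiableOn ℂ h Up)
    (hf : ∀ τ ∈ Up, f τ = τ ^ 10 * h (-1 / τ)) :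
    ∀ τ ∈ Up, GG f τ = τ ^ 6 * GG h (-1 / τ) := by
  intro τ hτ
  have h1 := sd_S 8 hh hf
  have e1 : (-(((8 : ℕ) : ℂ) + 2)) = -10 := by norm_num
  rw [e1] at h1
  have h2 := sd_S 6 (sd_diff (-10) hh) h1
  have e2 : (-(((6 : ℕ) : ℂ) + 2)) = -8 := by norm_num
  rw [e2] at h2
  unfold GG
  rw [h2 τ hτ, hf τ hτ, E4c_S hτ]
  ring

theorem GG_T (c : ℂ) {f : ℂ → ℂ} (hf : ∀ τ ∈ Up, f (τ + 1) = c * f τ)
    (hd : DifferentiableOn ℂ f Up) : ∀ τ ∈ Up, GG f (τ + 1) = c * GG f τ := by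
  intro τ hτ
  unfold GG
  rw [sd_T (-8) c (sd_T (-10) c hf hd) (sd_diff _ hd) τ hτ, hf τ hτ, E4c_T hτ]
  ring

/-! ### Expansions -/

/-- `f = q ^ r h(q)` -/
def QF (r : ℝ) (f h : ℂ → ℂ) : Prop :=
  DifferentiableOn ℂ h (Metric.ball 0 1) ∧ ∀ τ ∈ Up, f τ = ee (r * τ) * h (ee τ)

theorem hasDerivAt_ee (c τ : ℂ) :
    HasDerivAt (fun τ => ee (c * τ)) (2 * Real.pi * Complex.I * c * ee (c * τ)) τ := by
  unfold ee
  have h1 : HasDerivAt (fun τ : ℂ => 2 * Real.pi * Complex.I * (c * τ))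
      (2 * Real.pi * Complex.I * c) τ := by
    have := ((hasDerivAt_id τ).const_mul c).const_mul (2 * Real.pi * Complex.I)
    simpa using this
  have h2 := h1.cexp
  rw [show Complex.exp (2 * Real.pi * Complex.I * (c * τ)) * (2 * Real.pi * Complex.I * c) =
    2 * Real.pi * Complex.I * c * Complex.exp (2 * Real.pi * Complex.I * (c * τ)) by ring] at h2
  exact h2

theorem diffAt_ball {h : ℂ → ℂ} (hh : DifferentiableOn ℂ h (Metric.ball 0 1)) {q : ℂ}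
    (hq : q ∈ Metric.ball (0 : ℂ) 1) : DifferentiableAt ℂ h q :=
  (hh q hq).differentiableAt (Metric.isOpen_ball.mem_nhds hq)

theorem QF_sd (k : ℂ) {r : ℝ} {f h : ℂ → ℂ} (H : QF r f h) :
    QF r (sd k f) (fun q => r * h q + q * deriv h q - k / 12 * e2 q * h q) := by
  obtain ⟨hh, hf⟩ := H
  refine ⟨?_, ?_⟩
  · have h1 : DifferentiableOn ℂ (deriv h) (Metric.ball 0 1) := hh.deriv Metric.isOpen_ball
    exact ((hh.const_mul _).add (differentiableOn_id.mul h1)).sub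
      ((e2_diff.const_mul _).mul hh)
  · intro τ hτ
    have h1 : HasDerivAt (fun τ => ee τ) (2 * Real.pi * Complex.I * ee τ) τ := by
      have := hasDerivAt_ee 1 τ
      simpa using this
    have h2 : HasDerivAt h (deriv h (ee τ)) (ee τ) := (diffAt_ball hh (ee_mem hτ)).hasDerivAt
    have h3 : HasDerivAt (fun τ => h (ee τ)) (deriv h (ee τ) * (2 * Real.pi * Complex.I * ee τ)) τ :=
      HasDerivAt.comp τ h2 h1
    have h4 := (hasDerivAt_ee (r : ℂ) τ).mul h3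
    have h5 : f =ᶠ[𝓝 τ] fun τ => ee (r * τ) * h (ee τ) := by
      filter_upwards [isOpen_Up.mem_nhds hτ] with x hx using hf x hx
    have h6 : deriv f τ = 2 * Real.pi * Complex.I * r * ee (r * τ) * h (ee τ) +
        ee (r * τ) * (deriv h (ee τ) * (2 * Real.pi * Complex.I * ee τ)) := by
      rw [h5.deriv_eq]; exact h4.deriv
    unfold sd
    rw [h6, hf τ hτ, e2_ee hτ]
    have := two_pi_I_ne
    have hpi : (Real.pi : ℂ) ≠ 0 := by exact_mod_cast Real.pi_ne_zero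
    have hI := Complex.I_ne_zero
    field_simp

theorem QF_GG {r : ℝ} {f h : ℂ → ℂ} (H : QF r f h) :
    ∃ g : ℂ → ℂ, QF r (GG f) g ∧ g 0 = ((r + 2 / 3) * (r + 5 / 6) - 1 / 18) * h 0 := by
  have h1 := QF_sd (-10) H
  have h2 := QF_sd (-8) h1
  refine ⟨_, ⟨h2.1.sub ((e4_diff.const_mul (1 / 18)).mul H.1), ?_⟩, ?_⟩
  · intro τ hτ
    unfold GG
    rw [h2.2 τ hτ, H.2 τ hτ, e4_ee hτ]
    simp only [Pi.sub_apply, Pi.mul_apply]
    ring
  · simp only [Pi.sub_apply, Pi.mul_apply, e2_zero, e4_zero]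
    ring

end

end Pool.Agent.U578.RL
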