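import Mathlib
import Pool.Agent.Y813.RL.Stm

/-!
# The vanishing lemma for vector valued modular forms of negative weight

The proof is the maximum principle for `η ^ (2 w) Ψ`.
-/

set_option autoImplicit false

open UpperHalfPlane hiding I
open Real Complex Filter Topology Set
open scoped MatrixGroups ModularForm Manifold

namespace Pool.Agent.U578.RL

noncomputable section

open ModularForm ModularGroup

lemma norm_eta_pow (z : ℍ) : ‖eta z‖ ^ 24 = ‖discriminant z‖ := by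
  simp [discriminant]

lemma disc_S (z : ℍ) : discriminant (ModularGroup.S • z) = (z : ℂ) ^ 12 * discriminant z := by
  have h := congrFun discriminant_S_invariant z
  rw [SL_slash_apply, denom_S] at h
  have hz : (z : ℂ) ≠ 0 := z.ne_zero
  rw [← h]
  simp only [zpow_neg]
  rw [show ((z : ℂ) ^ (12 : ℤ)) = (z : ℂ) ^ 12 by norm_cast]
  field_simp

lemma disc_T (z : ℍ) : discriminant (ModularGroup.T • z) = discriminant z := by
  have h := congrFun discriminant_T_invariant z
  rw [SL_slash_apply] at h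
  have hd : denom ModularGroup.T z = 1 := by
    rw [ModularGroup.denom_apply]; simp [ModularGroup.T]
  rw [hd] at h
  simpa using h

lemma norm_eta_S (z : ℍ) : ‖eta (ModularGroup.S • z : ℍ)‖ ^ 2 = ‖(z : ℂ)‖ * ‖eta z‖ ^ 2 := by
  have h : (‖eta (ModularGroup.S • z : ℍ)‖ ^ 2) ^ 12 = (‖(z : ℂ)‖ * ‖eta z‖ ^ 2) ^ 12 := by
    rw [← pow_mul, norm_eta_pow, disc_S, norm_mul, norm_pow, mul_pow, ← pow_mul, norm_eta_pow]
  exact (pow_left_inj₀ (by positivity) (by positivity) (by norm_num)).1 h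

lemma norm_eta_T (z : ℍ) : ‖eta (ModularGroup.T • z : ℍ)‖ = ‖eta z‖ := by
  have h : ‖eta (ModularGroup.T • z : ℍ)‖ ^ 24 = ‖eta z‖ ^ 24 := by
    rw [norm_eta_pow, disc_T, norm_eta_pow]
  exact (pow_left_inj₀ (by positivity) (by positivity) (by norm_num)).1 h

/-- a function on the upper half plane which is invariant under `S` and `T` is invariant -/
lemma invariant_of_ST {α : Type*} (h : ℍ → α) (hS : ∀ z, h (ModularGroup.S • z) = h z)
    (hT : ∀ z, h (ModularGroup.T • z) = h z) (g : SL(2, ℤ)) (z : ℍ) : h (g • z) = h z := by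
  have hg : g ∈ Subgroup.closure {ModularGroup.S, ModularGroup.T} := by
    rw [SpecialLinearGroup.SL2Z_generators]; trivial
  revert z
  induction hg using Subgroup.closure_induction with
  | mem x hx =>
    intro z
    rcases hx with rfl | hx
    · exact hS z
    · rw [Set.mem_singleton_iff.1 hx]; exact hT z
  | one => intro z; simp
  | mul x y _ _ h1 h2 => intro z; rw [mul_smul, h1, h2]
  | inv x _ h1 => intro z; rw [← h1 (x⁻¹ • z), smul_inv_smul]

/-- the decay of the discriminant -/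
lemma disc_decay : ∃ K Y : ℝ, 0 < K ∧ ∀ z : ℍ, Y ≤ z.im →
    ‖discriminant z‖ ≤ K * Real.exp (-(2 * π * z.im)) := by
  have h := CuspFormClass.exp_decay_atImInfty (h := 1) CuspForm.discriminant one_pos
    one_mem_strictPeriods_SL
  rw [Asymptotics.isBigO_iff'] at h
  obtain ⟨K, hK, h⟩ := h
  rw [atImInfty, Filter.eventually_comap, Filter.eventually_atTop] at h
  obtain ⟨Y, hY⟩ := h
  refine ⟨K, Y, hK, fun z hz => ?_⟩
  have := hY z.im hz z rfl
  rw [Real.norm_of_nonneg (Real.exp_pos _).le] at this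
  have e : -2 * π * z.im / 1 = -(2 * π * z.im) := by ring
  rw [e] at this
  exact this

variable {ι : Type} [Fintype ι]

/-- the invariant function -/
def hh (w : ℕ) (Ψ : ℂ → ι → ℂ) (τ : ℂ) : ℝ := ‖eta τ‖ ^ (4 * w) * ∑ i, ‖Ψ τ i‖ ^ 2

lemma hh_nonneg (w : ℕ) (Ψ : ℂ → ι → ℂ) (τ : ℂ) : 0 ≤ hh w Ψ τ := by
  unfold hh; positivity

theorem jobVV : Pool.Agent.Y813.RL.JobVV := by
  intro ι _ w κ Ψ hκ hΨ hT hS hb τ₁ hτ₁ i₁
  -- invariance
  have invS : ∀ z : ℍ, hh w Ψ (ModularGroup.S • z : ℍ) = hh w Ψ z := by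
    intro z
    have h1 := hS z z.im_pos
    have e : ((ModularGroup.S • z : ℍ) : ℂ) = -1 / (z : ℂ) := by
      rw [modular_S_smul]
      simp [div_eq_mul_inv, inv_neg]
    unfold hh
    have h2 : ‖eta (ModularGroup.S • z : ℍ)‖ ^ (4 * w) =
        ‖(z : ℂ)‖ ^ (2 * w) * ‖eta z‖ ^ (4 * w) := by
      have := congrArg (fun x => x ^ (2 * w)) (norm_eta_S z)
      simp only [mul_pow] at this
      rw [← pow_mul, ← pow_mul] at this
      rw [show 4 * w = 2 * (2 * w) by ring]
      exact this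
    rw [h2, e, ← h1]
    ring
  have invT : ∀ z : ℍ, hh w Ψ (ModularGroup.T • z : ℍ) = hh w Ψ z := by
    intro z
    have h1 := hT z z.im_pos
    have e : ((ModularGroup.T • z : ℍ) : ℂ) = (z : ℂ) + 1 := by
      rw [modular_T_smul]
      simp [add_comm]
    unfold hh
    rw [norm_eta_T, e, h1]
  have inv : ∀ (g : SL(2, ℤ)) (z : ℍ), hh w Ψ (g • z : ℍ) = hh w Ψ z :=
    fun g z => invariant_of_ST (fun z : ℍ => hh w Ψ z) invS invT g z
  -- decay
  have dec : ∀ ε : ℝ, 0 < ε → ∃ Y : ℝ, 0 < Y ∧ ∀ z : ℍ, Y ≤ z.im → hh w Ψ z < ε := by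
    intro ε hε
    obtain ⟨C, hC⟩ := hb
    obtain ⟨K, Y0, hK, hdec⟩ := disc_decay
    set c : ℝ := 2 * π * w + 24 * π * κ with hc
    have hc0 : 0 < c := by
      have : -(w : ℝ) < 12 * κ := by
        have := hκ
        rw [div_lt_iff₀ (by norm_num)] at this
        linarith
      have hpi := Real.pi_pos
      nlinarith
    have hlim : Tendsto (fun y : ℝ => K ^ w * ((Fintype.card ι) * C ^ 2) ^ 6 *
        Real.exp (-(c * y))) atTop (𝓝 0) := by
      rw [show (0 : ℝ) = K ^ w * ((Fintype.card ι) * C ^ 2) ^ 6 * 0 by ring]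
      apply Tendsto.const_mul
      apply Real.tendsto_exp_neg_atTop_nhds_zero.comp
      exact tendsto_id.const_mul_atTop hc0
    have hev := (hlim.eventually (gt_mem_nhds (show (0 : ℝ) < ε ^ 6 by positivity)))
    rw [Filter.eventually_atTop] at hev
    obtain ⟨Y1, hY1⟩ := hev
    refine ⟨max (max Y0 Y1) 1, by positivity, fun z hz => ?_⟩
    have hz0 : Y0 ≤ z.im := le_trans (le_trans (le_max_left _ _) (le_max_left _ _)) hz
    have hz1 : Y1 ≤ z.im := le_trans (le_trans (le_max_right _ _) (le_max_left _ _)) hz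
    have hz2 : 1 ≤ z.im := le_trans (le_max_right _ _) hz
    have h6 : (hh w Ψ z) ^ 6 < ε ^ 6 := by
      refine lt_of_le_of_lt ?_ (hY1 z.im hz1)
      unfold hh
      rw [mul_pow, ← pow_mul, show 4 * w * 6 = 24 * w by ring, pow_mul, norm_eta_pow]
      have h1 : ‖discriminant z‖ ^ w ≤ K ^ w * Real.exp (-(2 * π * z.im)) ^ w := by
        rw [← mul_pow]
        exact pow_le_pow_left₀ (norm_nonneg _) (hdec z hz0) _
      have h2 : (∑ i, ‖Ψ z i‖ ^ 2) ^ 6 ≤
          ((Fintype.card ι) * C ^ 2) ^ 6 * (Real.exp (-(2 * π * κ * z.im)) ^ 2) ^ 6 := by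
        rw [← mul_pow]
        apply pow_le_pow_left₀ (by positivity)
        calc ∑ i, ‖Ψ z i‖ ^ 2 ≤ ∑ i : ι, (C * Real.exp (-(2 * π * κ * z.im))) ^ 2 := by
              apply Finset.sum_le_sum
              intro i _
              exact pow_le_pow_left₀ (norm_nonneg _) (hC z (by linarith [show (z : ℂ).im = z.im from rfl]) i) 2
          _ = _ := by rw [Finset.sum_const, Finset.card_univ, nsmul_eq_mul]; ring
      calc ‖discriminant z‖ ^ w * (∑ i, ‖Ψ z i‖ ^ 2) ^ 6
          ≤ (K ^ w * Real.exp (-(2 * π * z.im)) ^ w) *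
            (((Fintype.card ι) * C ^ 2) ^ 6 * (Real.exp (-(2 * π * κ * z.im)) ^ 2) ^ 6) := by
            apply mul_le_mul h1 h2 (by positivity) (by positivity)
        _ = K ^ w * ((Fintype.card ι) * C ^ 2) ^ 6 * Real.exp (-(c * z.im)) := by
            rw [← Real.exp_nat_mul, ← Real.exp_nat_mul, ← Real.exp_nat_mul]
            have : Real.exp (-(c * z.im)) = Real.exp (w * -(2 * π * z.im)) *
                Real.exp ((6 : ℕ) * ((2 : ℕ) * -(2 * π * κ * z.im))) := by
              rw [← Real.exp_add]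
              congr 1
              rw [hc]
              push_cast
              ring
            rw [this]
            ring
    exact lt_of_pow_lt_pow_left₀ 6 hε.le h6
  by_contra hne
  set z₁ : ℍ := ⟨τ₁, hτ₁⟩ with hz₁
  have hpos : 0 < hh w Ψ z₁ := by
    unfold hh
    have h1 : 0 < ‖eta z₁‖ := norm_pos_iff.2 (eta_ne_zero z₁.2)
    have h2 : 0 < ∑ i, ‖Ψ z₁ i‖ ^ 2 := by
      apply Finset.sum_pos'
      · intro i _; positivity
      · exact ⟨i₁, Finset.mem_univ _, by
          have : 0 < ‖Ψ z₁ i₁‖ := norm_pos_iff.2 hne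
          positivity⟩
    positivity
  obtain ⟨Y, hY0, hY⟩ := dec _ hpos
  have hcontη : ContinuousOn eta {z : ℂ | 0 < z.im} := fun x hx =>
    (differentiableAt_eta_of_mem_upperHalfPlaneSet hx).continuousAt.continuousWithinAt
  have hcont : ContinuousOn (hh w Ψ) {z : ℂ | 0 < z.im} := by
    unfold hh
    apply ContinuousOn.mul
    · exact hcontη.norm.pow _
    · apply continuousOn_finsetSum
      intro i _
      exact (((continuous_apply i).comp_continuousOn hΨ.continuousOn).norm).pow _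
  -- compact set
  set K : Set ℂ := Icc (-1/2 : ℝ) (1/2) ×ℂ Icc (1/2 : ℝ) Y with hKdef
  have hKc : IsCompact K := isCompact_Icc.reProdIm isCompact_Icc
  have hKsub : K ⊆ {z : ℂ | 0 < z.im} := by
    intro z hz
    have := hz.2.1
    change 0 < z.im
    linarith
  have key : ∀ z : ℍ, ∃ g : SL(2, ℤ), |(g • z : ℍ).re| ≤ 1 / 2 ∧ 1 / 2 ≤ (g • z : ℍ).im := by
    intro z
    obtain ⟨g, hg⟩ := exists_smul_mem_fd z
    refine ⟨g, hg.2, ?_⟩
    have := three_le_four_mul_im_sq_of_mem_fd hg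
    have hp := (g • z : ℍ).im_pos
    nlinarith
  have hmemK : ∀ z : ℍ, |z.re| ≤ 1 / 2 → 1 / 2 ≤ z.im → z.im ≤ Y → (z : ℂ) ∈ K := by
    intro z h1 h2 h3
    rw [abs_le] at h1
    refine ⟨⟨?_, ?_⟩, ⟨?_, ?_⟩⟩
    · change -1/2 ≤ z.re; linarith
    · exact h1.2
    · exact h2
    · exact h3
  obtain ⟨g₁, hg1, hg1'⟩ := key z₁
  have hh1 : hh w Ψ (g₁ • z₁ : ℍ) = hh w Ψ z₁ := inv g₁ z₁
  have hlt1 : (g₁ • z₁ : ℍ).im < Y := by
    by_contra hcon
    push Not at hcon
    have := hY _ hcon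
    rw [hh1] at this
    exact lt_irrefl _ this
  have hK1 : ((g₁ • z₁ : ℍ) : ℂ) ∈ K := hmemK _ hg1 hg1' hlt1.le
  obtain ⟨z₀, hz₀K, hz₀⟩ := hKc.exists_isMaxOn ⟨_, hK1⟩ (hcont.mono hKsub)
  have hz₀pos : 0 < z₀.im := hKsub hz₀K
  have hge : hh w Ψ z₁ ≤ hh w Ψ z₀ := by
    rw [← hh1]; exact hz₀ hK1
  have hmax : ∀ z : ℂ, 0 < z.im → hh w Ψ z ≤ hh w Ψ z₀ := by
    intro z hz
    obtain ⟨g, hg, hg'⟩ := key ⟨z, hz⟩
    have e : hh w Ψ (g • (⟨z, hz⟩ : ℍ) : ℍ) = hh w Ψ z := inv g ⟨z, hz⟩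
    rw [← e]
    by_cases hc : Y ≤ (g • (⟨z, hz⟩ : ℍ) : ℍ).im
    · exact (hY _ hc).le.trans hge
    · exact hz₀ (hmemK _ hg hg' (not_le.1 hc).le)
  -- the holomorphic vector valued function
  let F : ℂ → EuclideanSpace ℂ ι := fun τ => WithLp.toLp 2 (fun i => ModularForm.eta τ ^ (2 * w) * Ψ τ i)
  have hF : DifferentiableOn ℂ F {z : ℂ | 0 < z.im} := by
    rw [differentiableOn_euclidean]
    intro i
    have h1 : DifferentiableOn ℂ (fun τ => ModularForm.eta τ ^ (2 * w)) {z : ℂ | 0 < z.im} := fun x hx =>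
      ((differentiableAt_eta_of_mem_upperHalfPlaneSet hx).pow _).differentiableWithinAt
    have h2 : DifferentiableOn ℂ (fun τ => Ψ τ i) {z : ℂ | 0 < z.im} :=
      (differentiableOn_pi.1 hΨ) i
    exact h1.mul h2
  have hnorm : ∀ τ, ‖F τ‖ ^ 2 = hh w Ψ τ := by
    intro τ
    rw [EuclideanSpace.norm_sq_eq]
    unfold hh
    rw [Finset.mul_sum]
    apply Finset.sum_congr rfl
    intro i _
    change ‖ModularForm.eta τ ^ (2 * w) * Ψ τ i‖ ^ 2 = _
    rw [norm_mul, norm_pow, mul_pow, ← pow_mul]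
    congr 2
    omega
  have hmaxF : IsMaxOn (norm ∘ F) {z : ℂ | 0 < z.im} z₀ := by
    intro z hz
    have := hmax z hz
    rw [← hnorm, ← hnorm] at this
    exact (pow_le_pow_iff_left₀ (norm_nonneg _) (norm_nonneg _) (by norm_num)).1 this
  have hpre : IsPreconnected {z : ℂ | 0 < z.im} := (convex_halfSpace_im_gt 0).isPreconnected
  have hopen : IsOpen {z : ℂ | 0 < z.im} := isOpen_lt continuous_const Complex.continuous_im
  have hconst := Complex.norm_eqOn_of_isPreconnected_of_isMaxOn hpre hopen hF hz₀pos hmaxF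
  -- evaluate high up
  have hYI : 0 < ((Y : ℂ) * Complex.I).im := by simpa using hY0
  have h1 := hconst hYI
  simp only [Function.comp, Function.const_apply] at h1
  have h2 : hh w Ψ ((Y : ℂ) * Complex.I) = hh w Ψ z₀ := by
    rw [← hnorm, ← hnorm, h1]
  have h3 := hY ⟨(Y : ℂ) * Complex.I, hYI⟩ (by
    change Y ≤ ((Y : ℂ) * Complex.I).im
    simp)
  change hh w Ψ ((Y : ℂ) * Complex.I) < _ at h3
  rw [h2] at h3
  exact absurd hge (not_le.2 h3)

end

end Pool.Agent.U578.RL
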