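import Mathlib
import Pool.Agent.U578.RL.SD
import Pool.Agent.U578.RL.FinFour
import Pool.Agent.U578.RL.VV

/-!
# The differential equation and the discriminant form
-/

set_option autoImplicit false

open Complex Filter Topology Set

namespace Pool.Agent.U578.RL

open Pool.Agent.Y813.RL

noncomputable section

/-! ### Expansions: shifting and bounds -/

theorem QF_shift {r : ℝ} {f h : ℂ → ℂ} (H : QF r f h) (h0 : h 0 = 0) :
    QF (r + 1) f (dslope h 0) := by
  refine ⟨?_, ?_⟩
  · rw [Complex.differentiableOn_dslope (Metric.ball_mem_nhds _ one_pos)]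
    exact H.1
  · intro τ hτ
    have hne : ee τ ≠ 0 := Complex.exp_ne_zero _
    rw [H.2 τ hτ, dslope_of_ne _ hne, slope_def_field, h0, sub_zero, sub_zero]
    push_cast
    rw [add_mul, one_mul, ee_add]
    field_simp

theorem QF_bound {r : ℝ} {f h : ℂ → ℂ} (H : QF r f h) :
    ∃ C : ℝ, 0 ≤ C ∧ ∀ τ : ℂ, 1 / 2 ≤ τ.im → ‖f τ‖ ≤ C * Real.exp (-(2 * Real.pi * r * τ.im)) := by
  have hρ : Real.exp (-Real.pi) < 1 := by
    rw [Real.exp_lt_one_iff]; linarith [Real.pi_pos]
  have hcomp : IsCompact (Metric.closedBall (0 : ℂ) (Real.exp (-Real.pi))) :=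
    isCompact_closedBall _ _
  have hcont : ContinuousOn h (Metric.closedBall (0 : ℂ) (Real.exp (-Real.pi))) :=
    H.1.continuousOn.mono (Metric.closedBall_subset_ball hρ)
  obtain ⟨C, hC⟩ := hcomp.exists_bound_of_continuousOn hcont
  refine ⟨max C 0, le_max_right _ _, fun τ hτ => ?_⟩
  have hup : τ ∈ Up := by change 0 < τ.im; linarith
  rw [H.2 τ hup, norm_mul]
  have h1 : ‖ee (r * τ)‖ = Real.exp (-(2 * Real.pi * r * τ.im)) := by
    rw [norm_ee]
    congr 1
    simp [Complex.mul_im]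
    ring
  have h2 : ‖h (ee τ)‖ ≤ C := by
    apply hC
    rw [mem_closedBall_zero_iff, norm_ee]
    apply Real.exp_le_exp.2
    have := Real.pi_pos
    nlinarith
  rw [h1, mul_comm]
  exact mul_le_mul_of_nonneg_right (h2.trans (le_max_left _ _)) (Real.exp_pos _).le

theorem tendsto_ee_top : Tendsto (fun y : ℝ => ee ((y : ℂ) * Complex.I)) atTop (𝓝 0) := by
  rw [tendsto_zero_iff_norm_tendsto_zero]
  have h1 : (fun y : ℝ => ‖ee ((y : ℂ) * Complex.I)‖) = fun y : ℝ => Real.exp (-(2 * Real.pi * y)) := by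
    funext y
    rw [norm_ee]
    simp
  rw [h1]
  apply Real.tendsto_exp_neg_atTop_nhds_zero.comp
  exact tendsto_id.const_mul_atTop (by positivity)

theorem mem_up_I {y : ℝ} (hy : 0 < y) : (y : ℂ) * Complex.I ∈ Up := by
  change 0 < ((y : ℂ) * Complex.I).im
  simpa using hy

/-- every nonzero point of the disc is `ee τ` -/
theorem ee_surj {q : ℂ} (hq : q ∈ Metric.ball (0 : ℂ) 1) (h0 : q ≠ 0) : ∃ τ ∈ Up, ee τ = q := by
  rw [mem_ball_zero_iff] at hq
  have hn : 0 < ‖q‖ := norm_pos_iff.2 h0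
  refine ⟨Complex.log q / (2 * Real.pi * Complex.I), ?_, ?_⟩
  · change 0 < (Complex.log q / (2 * Real.pi * Complex.I)).im
    have h1 : Complex.log q / (2 * Real.pi * Complex.I) =
        -(((2 * Real.pi : ℝ) : ℂ)⁻¹ * (Complex.I * Complex.log q)) := by
      have hpi : (Real.pi : ℂ) ≠ 0 := by exact_mod_cast Real.pi_ne_zero
      have hI := Complex.I_ne_zero
      push_cast
      field_simp
      have := Complex.I_sq
      linear_combination (Complex.log q) * this
    rw [h1, Complex.neg_im, ← Complex.ofReal_inv, Complex.im_ofReal_mul]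
    rw [Complex.I_mul_im, Complex.log_re]
    have h2 : Real.log ‖q‖ < 0 := Real.log_neg hn hq
    have h3 : 0 < (2 * Real.pi)⁻¹ := by positivity
    nlinarith
  · unfold ee
    rw [mul_div_cancel₀ _ two_pi_I_ne, Complex.exp_log h0]

theorem eq_zero_of_QF {r : ℝ} {f h : ℂ → ℂ} (H : QF r f h) (hf : ∀ τ ∈ Up, f τ = 0) : h 0 = 0 := by
  have h1 : Tendsto (fun y : ℝ => h (ee ((y : ℂ) * Complex.I))) atTop (𝓝 (h 0)) := by
    have hc : ContinuousAt h 0 := (diffAt_ball H.1 (by simp)).continuousAt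
    exact hc.tendsto.comp tendsto_ee_top
  have h2 : (fun y : ℝ => h (ee ((y : ℂ) * Complex.I))) =ᶠ[atTop] fun _ => (0 : ℂ) := by
    filter_upwards [eventually_gt_atTop (0 : ℝ)] with y hy
    have h3 := H.2 _ (mem_up_I hy)
    rw [hf _ (mem_up_I hy)] at h3
    rcases mul_eq_zero.1 h3.symm with h4 | h4
    · exact absurd h4 (Complex.exp_ne_zero _)
    · exact h4
  exact tendsto_nhds_unique h1 ((tendsto_congr' h2).2 tendsto_const_nhds)

/-- splitting off the order of vanishing at `0` -/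
theorem factor {h : ℂ → ℂ} (hh : DifferentiableOn ℂ h (Metric.ball 0 1))
    (hne : ∃ q ∈ Metric.ball (0 : ℂ) 1, h q ≠ 0) :
    ∃ (m : ℕ) (k : ℂ → ℂ), DifferentiableOn ℂ k (Metric.ball 0 1) ∧ k 0 ≠ 0 ∧
      ∀ q ∈ Metric.ball (0 : ℂ) 1, h q = q ^ m * k q := by
  have han : AnalyticOnNhd ℂ h (Metric.ball 0 1) := hh.analyticOnNhd Metric.isOpen_ball
  have h0 : AnalyticAt ℂ h 0 := han 0 (by simp)
  have hnf : ¬ ∀ᶠ z in 𝓝 (0 : ℂ), h z = 0 := by
    intro hev
    obtain ⟨q, hq, hq0⟩ := hne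
    apply hq0
    have := han.eqOn_zero_of_preconnected_of_eventuallyEq_zero
      (convex_ball _ _).isPreconnected (by simp : (0 : ℂ) ∈ Metric.ball 0 1) hev
    exact this hq
  obtain ⟨m, g, hg, hg0, hev⟩ := (h0.exists_eventuallyEq_pow_smul_nonzero_iff).2 hnf
  simp only [sub_zero, smul_eq_mul] at hev
  classical
  refine ⟨m, fun q => if q = 0 then g 0 else h q / q ^ m, ?_, by simpa using hg0, ?_⟩
  · intro q hq
    by_cases hq0 : q = 0
    · subst hq0
      have e : (fun q => if q = 0 then g 0 else h q / q ^ m) =ᶠ[𝓝 (0 : ℂ)] g := by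
        filter_upwards [hev] with z hz
        by_cases hz0 : z = 0
        · simp [hz0]
        · simp only [hz0, if_false]
          rw [hz]
          field_simp
      exact (hg.differentiableAt.congr_of_eventuallyEq e).differentiableWithinAt
    · have e : (fun q => if q = 0 then g 0 else h q / q ^ m) =ᶠ[𝓝 q] fun q => h q / q ^ m := by
        filter_upwards [isOpen_ne.mem_nhds hq0] with z hz
        simp [show z ≠ 0 from hz]
      have hd : DifferentiableAt ℂ (fun q => h q / q ^ m) q :=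
        (diffAt_ball hh hq).div (differentiableAt_pow m) (pow_ne_zero _ hq0)
      exact (hd.congr_of_eventuallyEq e).differentiableWithinAt
  · intro q hq
    by_cases hq0 : q = 0
    · subst hq0
      simp only [if_true]
      exact hev.self_of_nhds
    · simp only [hq0, if_false]
      field_simp

theorem QF_factor {r : ℝ} {f h k : ℂ → ℂ} (H : QF r f h) {m : ℕ}
    (hk : DifferentiableOn ℂ k (Metric.ball 0 1))
    (hm : ∀ q ∈ Metric.ball (0 : ℂ) 1, h q = q ^ m * k q) : QF (r + m) f k := by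
  refine ⟨hk, fun τ hτ => ?_⟩
  rw [H.2 τ hτ, hm _ (ee_mem hτ)]
  have h1 : ee ((((r + m : ℝ)) : ℂ) * τ) = ee (r * τ) * ee τ ^ m := by
    push_cast
    rw [add_mul, ee_add]
    congr 1
    unfold ee
    rw [← Complex.exp_nat_mul]
    congr 1
    ring
  rw [h1]
  ring

/-! ### The exponents -/

/-- the exponent of the class of norm `a` -/
def rex (a : ℝ) : ℝ := (⌊a / 2 - 1 / 2⌋ : ℝ) - a / 2

theorem rex_le (a : ℝ) : rex a ≤ -1 / 2 := by
  unfold rex
  have := Int.floor_le (a / 2 - 1 / 2)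
  linarith

theorem lt_rex (a : ℝ) : -3 / 2 < rex a := by
  unfold rex
  have := Int.lt_floor_add_one (a / 2 - 1 / 2)
  linarith

theorem rex_even (a : ℝ) (h : ∃ k : ℤ, a = 2 * k) : rex a = -1 := by
  obtain ⟨k, rfl⟩ := h
  unfold rex
  have h1 : ⌊(2 * (k : ℝ)) / 2 - 1 / 2⌋ = k - 1 := by
    rw [Int.floor_eq_iff]
    push_cast
    constructor <;> linarith
  rw [h1]
  push_cast
  ring

/-- expansion of a component -/
theorem comp_QF {f : ℂ → ℂ} {a : ℝ} (hd : DifferentiableOn ℂ f Up)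
    (hT : ∀ τ ∈ Up, f (τ + 1) = ee (-((a : ℂ) / 2)) * f τ)
    (s : ℝ) (hs : rex a ≤ s)
    (hb : ∃ C : ℝ, ∀ τ : ℂ, 1 / 2 ≤ τ.im → ‖f τ‖ ≤ C * Real.exp (-(2 * Real.pi * s * τ.im))) :
    ∃ h : ℂ → ℂ, QF (rex a) f h ∧ (rex a < s → h 0 = 0) := by
  obtain ⟨C, hC⟩ := hb
  set r := rex a with hr
  have hnorm : ∀ τ : ℂ, ‖ee (-(r * τ))‖ = Real.exp (2 * Real.pi * r * τ.im) := by
    intro τ
    rw [norm_ee]
    congr 1
    simp [Complex.mul_im]
    ring
  have hbd : ∀ τ : ℂ, 1 / 2 ≤ τ.im → ‖f τ * ee (-(r * τ))‖ ≤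
      C * Real.exp (2 * Real.pi * (r - s) * τ.im) := by
    intro τ hτ
    rw [norm_mul, hnorm]
    calc ‖f τ‖ * Real.exp (2 * Real.pi * r * τ.im)
        ≤ C * Real.exp (-(2 * Real.pi * s * τ.im)) * Real.exp (2 * Real.pi * r * τ.im) :=
          mul_le_mul_of_nonneg_right (hC τ hτ) (Real.exp_pos _).le
      _ = _ := by
          rw [mul_assoc, ← Real.exp_add]
          congr 2
          ring
  have hC0 : 0 ≤ C := by
    have h1 := hC (Complex.I) (by simp; norm_num)
    have h2 := Real.exp_pos (-(2 * Real.pi * s * (Complex.I).im))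
    by_contra hcon
    push Not at hcon
    have := norm_nonneg (f Complex.I)
    nlinarith
  obtain ⟨h, hh, hfh⟩ := qrep (fun τ => f τ * ee (-(r * τ))) (by
      apply hd.mul
      intro τ _
      have := (hasDerivAt_ee (-(r : ℂ)) τ).differentiableAt
      have e : (fun τ : ℂ => ee (-(r * τ))) = fun τ => ee (-(r : ℂ) * τ) := by
        funext x; rw [neg_mul]
      rw [e]
      exact this.differentiableWithinAt) (by
      intro τ hτ
      rw [hT τ hτ, show (-(r * (τ + 1)) : ℂ) = -(r * τ) + -(r : ℂ) by ring, ee_add]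
      have e1 : ee (-((a : ℂ) / 2)) * ee (-(r : ℂ)) = 1 := by
        rw [← ee_add, hr]
        unfold rex
        have := ee_int (-⌊a / 2 - 1 / 2⌋)
        push_cast at this ⊢
        rw [← this]
        congr 1
        ring
      calc ee (-((a : ℂ) / 2)) * f τ * (ee (-(r * τ)) * ee (-(r : ℂ)))
          = (ee (-((a : ℂ) / 2)) * ee (-(r : ℂ))) * (f τ * ee (-(r * τ))) := by ring
        _ = _ := by rw [e1, one_mul]) ⟨C, by
      intro τ hτ
      refine (hbd τ hτ).trans ?_
      have h1 : Real.exp (2 * Real.pi * (r - s) * τ.im) ≤ 1 := by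
        rw [Real.exp_le_one_iff]
        have h2 : 0 ≤ Real.pi * τ.im := by have := Real.pi_pos; nlinarith
        nlinarith
      nlinarith⟩
  refine ⟨h, ⟨hh, ?_⟩, ?_⟩
  · intro τ hτ
    rw [← hfh τ hτ, mul_comm (f τ), ← mul_assoc, ← ee_add, add_neg_cancel, ee_zero, one_mul]
  · intro hlt
    have h1 : Tendsto (fun y : ℝ => h (ee ((y : ℂ) * Complex.I))) atTop (𝓝 (h 0)) := by
      have hc : ContinuousAt h 0 := (diffAt_ball hh (by simp)).continuousAt
      exact hc.tendsto.comp tendsto_ee_top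
    have h2 : Tendsto (fun y : ℝ => h (ee ((y : ℂ) * Complex.I))) atTop (𝓝 0) := by
      have h3 : Tendsto (fun y : ℝ => C * Real.exp (-((2 * Real.pi * (s - r)) * y))) atTop (𝓝 0) := by
        rw [show (0 : ℝ) = C * 0 by ring]
        apply Tendsto.const_mul
        apply Real.tendsto_exp_neg_atTop_nhds_zero.comp
        apply tendsto_id.const_mul_atTop
        have := Real.pi_pos
        have h4 : 0 < s - r := by linarith
        positivity
      apply squeeze_zero_norm' _ h3
      filter_upwards [eventually_ge_atTop (1 : ℝ)] with y hy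
      have hy0 : 0 < y := by linarith
      rw [← hfh _ (mem_up_I hy0)]
      have h5 := hbd ((y : ℂ) * Complex.I) (by simp; linarith)
      refine h5.trans (le_of_eq ?_)
      congr 2
      simp
      ring
    exact tendsto_nhds_unique h1 h2

end

end Pool.Agent.U578.RL
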