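import Mathlib
import Pool.Agent.U578.RL.ODE

/-!
# The conclusion on the discriminant form
-/

set_option autoImplicit false

open Complex Filter Topology Set

namespace Pool.Agent.U578.RL

open Pool.Agent.Y813.RL

noncomputable section

theorem comp_zero {f h : ℂ → ℂ} {r : ℝ} (H : QF r f h) (h0 : h 0 = 0) (hr : -3 / 2 < r)
    (hg : ∀ τ ∈ Up, GG f τ = 0) : ∀ τ ∈ Up, f τ = 0 := by
  by_contra hcon
  have hne : ∃ q ∈ Metric.ball (0 : ℂ) 1, h q ≠ 0 := by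
    by_contra hc
    push Not at hc
    apply hcon
    intro τ hτ
    rw [H.2 τ hτ, hc _ (ee_mem hτ), mul_zero]
  obtain ⟨m, k, hk, hk0, hm⟩ := factor H.1 hne
  have H2 := QF_factor H hk hm
  obtain ⟨g, Hg, hg0⟩ := QF_GG H2
  have h1 := eq_zero_of_QF Hg hg
  rw [hg0] at h1
  have h2 : ((r + m : ℝ) + 2 / 3 : ℂ) * ((r + m : ℝ) + 5 / 6) - 1 / 18 = 0 := by
    rcases mul_eq_zero.1 h1 with h3 | h3
    · exact h3
    · exact absurd h3 hk0
  have h3 : ((r + m : ℝ) + 1) * ((r + m : ℝ) + 1 / 2) = 0 := by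
    have h5 : ((((r + m : ℝ) + 2 / 3) * ((r + m : ℝ) + 5 / 6) - 1 / 18 : ℝ) : ℂ) = 0 := by
      push_cast
      push_cast at h2
      exact h2
    have h6 : ((r + m : ℝ) + 2 / 3) * ((r + m : ℝ) + 5 / 6) - 1 / 18 = 0 := by
      exact Complex.ofReal_eq_zero.1 h5
    nlinarith
  have hm1 : 1 ≤ m := by
    by_contra hc
    have : m = 0 := by omega
    subst this
    apply hk0
    have := hm 0 (by simp)
    rw [h0] at this
    simpa using this.symm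
  have hm1' : (1 : ℝ) ≤ m := by exact_mod_cast hm1
  rcases mul_eq_zero.1 h3 with h4 | h4 <;> linarith

theorem scalar_zero {F : ℂ → ℂ} (hT : ∀ τ ∈ Up, F (τ + 1) = F τ)
    (hS : ∀ τ ∈ Up, F τ = -(τ ^ 10) * F (-1 / τ)) : ∀ τ ∈ Up, F τ = 0 := by
  intro τ hτ
  have h0 := ne_zero_of_up hτ
  have hs : τ - 1 ∈ Up := by
    change 0 < (τ - 1).im
    simpa using hτ
  have h1 := ne_zero_of_up hs
  have e1 : F (-1 / τ) = F ((τ - 1) / τ) := by
    rw [← hT _ (neg_inv_mem hτ)]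
    congr 1
    field_simp
    ring
  have hx : (τ - 1) / τ ∈ Up := by
    have := add_one_mem (neg_inv_mem hτ)
    have e : -1 / τ + 1 = (τ - 1) / τ := by field_simp; ring
    rwa [e] at this
  have e2 := hS _ hx
  have e3 : F (-1 / ((τ - 1) / τ)) = F (-1 / (τ - 1)) := by
    rw [← hT _ (neg_inv_mem hx)]
    congr 1
    field_simp
    ring
  have e4 := hS _ hs
  have e5 : F (τ - 1) = F τ := by
    rw [← hT _ hs]; congr 1; ring
  have e6 : F τ = -F τ := by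
    calc F τ = -(τ ^ 10) * F (-1 / τ) := hS τ hτ
      _ = -(τ ^ 10) * (-(((τ - 1) / τ) ^ 10) * F (-1 / (τ - 1))) := by rw [e1, e2, e3]
      _ = (τ - 1) ^ 10 * F (-1 / (τ - 1)) := by field_simp
      _ = -F (τ - 1) := by rw [e4]; ring
      _ = -F τ := by rw [e5]
  have h7 : 2 * F τ = 0 := by linear_combination e6
  simpa using h7

variable {G : Matrix (Fin 20) (Fin 20) ℤ} {R : Finset (Fin 20 → ℤ)} {f : (Fin 20 → ℤ) → ℂ → ℂ}

theorem sqrt_ne (hG : PosSymm G) : (Real.sqrt (G.det : ℝ) : ℂ) ≠ 0 := by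
  have h1 : (0 : ℝ) < G.det := by exact_mod_cast det_pos hG
  have h2 := Real.sqrt_pos.2 h1
  exact_mod_cast h2.ne'

/-- isometry property of the `S`-relation -/
theorem norm_S (hG : PosSymm G) (hR : IsReps G R) (w : ℕ) {g : (Fin 20 → ℤ) → ℂ → ℂ} {τ : ℂ}
    (hS : ∀ μ, g μ τ = -(τ ^ w) / (Real.sqrt (G.det : ℝ) : ℂ) *
      ∑ ρ ∈ R, ee (-(bd G μ ρ : ℂ)) * g ρ (-1 / τ)) :
    ‖τ‖ ^ (2 * w) * ∑ i : R, ‖g i (-1 / τ)‖ ^ 2 = ∑ i : R, ‖g i τ‖ ^ 2 := by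
  have h1 : (0 : ℝ) < G.det := by exact_mod_cast det_pos hG
  have h2 : ∀ μ, ‖g μ τ‖ ^ 2 = ‖τ‖ ^ (2 * w) / (G.det : ℝ) *
      ‖∑ ρ ∈ R, ee (-(bd G μ ρ : ℂ)) * g ρ (-1 / τ)‖ ^ 2 := by
    intro μ
    rw [hS μ, norm_mul, mul_pow, norm_div, norm_neg, norm_pow, div_pow, Complex.norm_real,
      Real.norm_of_nonneg (Real.sqrt_nonneg _), Real.sq_sqrt h1.le, ← pow_mul, mul_comm w 2]
  have h3 : ∑ i : R, ‖g i τ‖ ^ 2 = ∑ μ ∈ R, ‖g μ τ‖ ^ 2 :=
    Finset.sum_coe_sort R (fun μ => ‖g μ τ‖ ^ 2)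
  have h4 : ∑ i : R, ‖g i (-1 / τ)‖ ^ 2 = ∑ μ ∈ R, ‖g μ (-1 / τ)‖ ^ 2 :=
    Finset.sum_coe_sort R (fun μ => ‖g μ (-1 / τ)‖ ^ 2)
  rw [h3, h4, Finset.sum_congr rfl (fun μ _ => h2 μ), ← Finset.mul_sum,
    unitary_det hG hR (fun ρ => g ρ (-1 / τ))]
  field_simp

/-- uniform bounds over the representatives -/
theorem unif_bound (R : Finset (Fin 20 → ℤ)) (g : (Fin 20 → ℤ) → ℂ → ℂ) (κ : ℝ)
    (hb : ∀ μ ∈ R, ∃ C : ℝ, ∀ τ : ℂ, 1 / 2 ≤ τ.im →
      ‖g μ τ‖ ≤ C * Real.exp (-(2 * Real.pi * κ * τ.im))) :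
    ∃ C : ℝ, ∀ τ : ℂ, 1 / 2 ≤ τ.im → ∀ i : R,
      ‖g i τ‖ ≤ C * Real.exp (-(2 * Real.pi * κ * τ.im)) := by
  have hb' : ∀ i : R, ∃ C : ℝ, ∀ τ : ℂ, 1 / 2 ≤ τ.im →
      ‖g i τ‖ ≤ C * Real.exp (-(2 * Real.pi * κ * τ.im)) := fun i => hb i i.2
  choose C hC using hb'
  refine ⟨∑ i : R, |C i|, fun τ hτ i => ?_⟩
  refine (hC i τ hτ).trans ?_
  apply mul_le_mul_of_nonneg_right _ (Real.exp_pos _).le
  exact (le_abs_self _).trans
    (Finset.single_le_sum (f := fun i : R => |C i|) (fun j _ => abs_nonneg _) (Finset.mem_univ i))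

/-- the vanishing lemma over a set of representatives -/
theorem VV_reps (R : Finset (Fin 20 → ℤ)) (w : ℕ) (κ : ℝ) (g : (Fin 20 → ℤ) → ℂ → ℂ)
    (hκ : -(w : ℝ) / 12 < κ) (hd : ∀ μ, DifferentiableOn ℂ (g μ) Up)
    (hT : ∀ μ, ∀ τ ∈ Up, ‖g μ (τ + 1)‖ = ‖g μ τ‖)
    (hS : ∀ τ ∈ Up, ‖τ‖ ^ (2 * w) * ∑ i : R, ‖g i (-1 / τ)‖ ^ 2 = ∑ i : R, ‖g i τ‖ ^ 2)
    (hb : ∀ μ ∈ R, ∃ C : ℝ, ∀ τ : ℂ, 1 / 2 ≤ τ.im →
      ‖g μ τ‖ ≤ C * Real.exp (-(2 * Real.pi * κ * τ.im))) :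
    ∀ τ ∈ Up, ∀ i : R, g i τ = 0 := by
  have h1 : DifferentiableOn ℂ (fun (τ : ℂ) (i : R) => g i τ) {τ | 0 < τ.im} := by
    rw [differentiableOn_pi]
    intro i
    exact hd i
  have h2 : ∀ τ : ℂ, 0 < τ.im → ∑ i : R, ‖g i (τ + 1)‖ ^ 2 = ∑ i : R, ‖g i τ‖ ^ 2 := by
    intro τ hτ
    apply Finset.sum_congr rfl
    intro i _
    rw [hT i τ hτ]
  have h3 := unif_bound R g κ hb
  exact jobVV R w κ (fun (τ : ℂ) (i : R) => g i τ) hκ h1 h2 hS h3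

theorem GG_VV (hG : PosSymm G) (hf : VV10 G R f) {μ : Fin 20 → ℤ} {τ : ℂ} (hτ : τ ∈ Up) :
    GG (f μ) τ = -(τ ^ 6) / (Real.sqrt (G.det : ℝ) : ℂ) *
      ∑ ρ ∈ R, ee (-(bd G μ ρ : ℂ)) * GG (f ρ) (-1 / τ) := by
  have hs := sqrt_ne hG
  have h1 : ∀ τ ∈ Up, f μ τ = τ ^ 10 * (fun x => ∑ ρ ∈ R,
      (-(1 : ℂ) / (Real.sqrt (G.det : ℝ) : ℂ) * ee (-(bd G μ ρ : ℂ))) * f ρ x) (-1 / τ) := by
    intro τ hτ
    rw [hf.S μ τ hτ]
    simp only [mul_assoc]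
    rw [← Finset.mul_sum]
    ring
  have hd : ∀ ρ, DifferentiableOn ℂ (f ρ) Up := fun ρ => hf.holo ρ
  have h2 := GG_S (DifferentiableOn.fun_sum fun ρ _ => (hd ρ).const_mul _) h1 τ hτ
  rw [h2, GG_sum R _ f hd _ (neg_inv_mem hτ)]
  simp only [mul_assoc]
  rw [← Finset.mul_sum]
  ring

/-- a class is nontrivial -/
def NT (G : Matrix (Fin 20) (Fin 20) ℤ) (μ : Fin 20 → ℤ) : Prop :=
  ¬ ∃ v : Fin 20 → ℤ, μ = G.mulVec v

theorem norm_even (hG : PosSymm G) (he : ∀ i, Even (G i i)) {μ : Fin 20 → ℤ}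
    (h : ∃ v : Fin 20 → ℤ, μ = G.mulVec v) : ∃ k : ℤ, bd G μ μ = 2 * k := by
  obtain ⟨v, rfl⟩ := h
  rw [bd_mulVec_right hG]
  -- `v^T G v` is even
  have h1 : ∃ k : ℤ, ∑ i, (G.mulVec v) i * v i = 2 * k := by
    have hsymm : ∀ i j, G i j = G j i := fun i j => (hG.symm.apply j i)
    have h2 : ∑ i, (G.mulVec v) i * v i = ∑ i, ∑ j, G i j * (v i * v j) := by
      apply Finset.sum_congr rfl
      intro i _
      rw [Matrix.mulVec, dotProduct, Finset.sum_mul]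
      apply Finset.sum_congr rfl
      intro j _
      ring
    rw [h2]
    rw [← even_iff_exists_two_mul, ← ZMod.intCast_eq_zero_iff_even]
    push_cast
    rw [← Finset.sum_product']
    apply Finset.sum_involution (fun p _ => (p.2, p.1))
    · intro p _
      rw [hsymm p.1 p.2]
      have : ∀ x : ZMod 2, x + x = 0 := by decide
      rw [mul_comm ((v p.2 : ℤ) : ZMod 2)]
      exact this _
    · intro p _ hp heq
      apply hp
      have : p.1 = p.2 := by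
        have := congrArg Prod.fst heq
        exact this.symm
      rw [this]
      have h3 := he p.2
      rw [← ZMod.intCast_eq_zero_iff_even] at h3
      rw [h3, zero_mul]
    · intro p _; simp
    · intro p _; rfl
  obtain ⟨k, hk⟩ := h1
  exact ⟨k, by rw [hk]; push_cast; ring⟩

theorem jobODE : JobODE := by
  intro G R f hG he hR hf hb0 hb1 hne
  have hd : ∀ μ, DifferentiableOn ℂ (f μ) Up := fun μ => hf.holo μ
  have hT : ∀ μ, ∀ τ ∈ Up, f μ (τ + 1) = ee (-((bd G μ μ : ℂ) / 2)) * f μ τ :=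
    fun μ τ hτ => hf.T μ τ hτ
  -- expansions
  have hQ : ∀ μ, ∃ h : ℂ → ℂ, QF (rex (bd G μ μ)) (f μ) h ∧
      (NT G μ → rex (bd G μ μ) < -1 / 2 → h 0 = 0) := by
    intro μ
    by_cases hμ : ∃ v : Fin 20 → ℤ, μ = G.mulVec v
    · have h1 := rex_even _ (norm_even hG he hμ)
      obtain ⟨C, hC⟩ := hb0 μ
      obtain ⟨h, hh, _⟩ := comp_QF (hd μ) (hT μ) (-1) h1.le ⟨C, fun τ hτ => by
        have := hC τ hτ
        rw [show -(2 * Real.pi * -1 * τ.im) = 2 * Real.pi * τ.im by ring]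
        exact this⟩
      exact ⟨h, hh, fun hn => absurd hμ hn⟩
    · obtain ⟨C, hC⟩ := hb1 μ hμ
      obtain ⟨h, hh, h2⟩ := comp_QF (hd μ) (hT μ) (-1 / 2) (rex_le _) ⟨C, fun τ hτ => by
        have := hC τ hτ
        rw [show -(2 * Real.pi * (-1 / 2) * τ.im) = Real.pi * τ.im by ring]
        exact this⟩
      exact ⟨h, hh, fun _ => h2⟩
  -- the operator kills `f`
  have hGQ : ∀ μ, ∃ g : ℂ → ℂ, QF (rex (bd G μ μ) + 1) (GG (f μ)) g := by
    intro μ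
    obtain ⟨h, hh, h0⟩ := hQ μ
    obtain ⟨g, hg, hg0⟩ := QF_GG hh
    refine ⟨_, QF_shift hg ?_⟩
    rw [hg0]
    by_cases hμ : ∃ v : Fin 20 → ℤ, μ = G.mulVec v
    · rw [rex_even _ (norm_even hG he hμ)]
      push_cast
      norm_num
    · rcases lt_or_eq_of_le (rex_le (bd G μ μ)) with h1 | h1
      · rw [h0 hμ h1, mul_zero]
      · rw [h1]
        push_cast
        norm_num
  obtain ⟨κ, hκ, hκ2⟩ : ∃ κ : ℝ, -1 / 2 < κ ∧ ∀ μ ∈ R, κ ≤ rex (bd G μ μ) + 1 := by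
    by_cases hRe : R.Nonempty
    · obtain ⟨μ₀, _, hmin⟩ := R.exists_min_image (fun μ => rex (bd G μ μ) + 1) hRe
      refine ⟨rex (bd G μ₀ μ₀) + 1, ?_, hmin⟩
      have := lt_rex (bd G μ₀ μ₀)
      linarith
    · exact ⟨0, by norm_num, fun μ hμ => absurd ⟨μ, hμ⟩ hRe⟩
  have hGb : ∀ μ ∈ R, ∃ C : ℝ, ∀ τ : ℂ, 1 / 2 ≤ τ.im →
      ‖GG (f μ) τ‖ ≤ C * Real.exp (-(2 * Real.pi * κ * τ.im)) := by
    intro μ hμ
    obtain ⟨g, hg⟩ := hGQ μ
    obtain ⟨C, hC0, hC⟩ := QF_bound hg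
    refine ⟨C, fun τ hτ => (hC τ hτ).trans ?_⟩
    apply mul_le_mul_of_nonneg_left _ hC0
    apply Real.exp_le_exp.2
    have h1 := hκ2 μ hμ
    have h2 : 0 < Real.pi * τ.im := by have := Real.pi_pos; positivity
    nlinarith
  have hGzR : ∀ τ ∈ Up, ∀ i : R, GG (f i) τ = 0 := by
    intro τ hτ i
    have k1 : -((6 : ℕ) : ℝ) / 12 < κ := by push_cast; linarith
    have k2 : ∀ μ, ∀ τ ∈ Up, ‖GG (f μ) (τ + 1)‖ = ‖GG (f μ) τ‖ := by
      intro μ τ hτ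
      rw [GG_T _ (hT μ) (hd μ) τ hτ, norm_mul]
      have : ‖ee (-((bd G μ μ : ℂ) / 2))‖ = 1 := by
        have := norm_ee_real (-(bd G μ μ / 2))
        push_cast at this
        exact this
      rw [this, one_mul]
    have k3 : ∀ τ ∈ Up, ‖τ‖ ^ (2 * 6) * ∑ i : R, ‖GG (f i) (-1 / τ)‖ ^ 2 =
        ∑ i : R, ‖GG (f i) τ‖ ^ 2 := by
      intro τ hτ
      exact norm_S (g := fun μ => GG (f μ)) hG hR 6 (fun μ => GG_VV hG hf hτ)
    exact VV_reps R 6 κ (fun μ => GG (f μ)) k1 (fun μ => GG_diff (hd μ)) k2 k3 hGb τ hτ i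
  have hGz : ∀ μ, ∀ τ ∈ Up, GG (f μ) τ = 0 := by
    intro μ τ hτ
    obtain ⟨v, hv⟩ := rep_spec hR μ
    have h1 : ∀ τ ∈ Up, f μ τ = f (rep hR μ) τ := by
      intro τ hτ
      conv_lhs => rw [hv]
      exact hf.inv _ v τ hτ
    rw [GG_congr h1 τ hτ]
    exact hGzR τ hτ ⟨rep hR μ, rep_mem hR μ⟩
  -- small exponents vanish
  have hsmall : ∀ μ, NT G μ → rex (bd G μ μ) < -1 / 2 → ∀ τ ∈ Up, f μ τ = 0 := by
    intro μ hμ hr
    obtain ⟨h, hh, h0⟩ := hQ μ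
    exact comp_zero hh (h0 hμ hr) (lt_rex _) (hGz μ)
  -- no component vanishes
  have hnv : ∀ μ, NT G μ → ¬ ∀ τ ∈ Up, f μ τ = 0 := by
    intro μ _ hz
    have hsq := sqrt_ne hG
    have hrel : ∀ τ ∈ Up, ∑ ρ ∈ R, ee (-(bd G μ ρ : ℂ)) * f ρ τ = 0 := by
      intro τ hτ
      have h1 := hf.S μ (-1 / τ) (neg_inv_mem hτ)
      rw [hz _ (neg_inv_mem hτ)] at h1
      have h2 : (-1 : ℂ) / (-1 / τ) = τ := by
        have := ne_zero_of_up hτ
        field_simp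
      rw [h2] at h1
      rcases mul_eq_zero.1 h1.symm with h3 | h3
      · exfalso
        rcases div_eq_zero_iff.1 h3 with h4 | h4
        · have h5 := ne_zero_of_up (neg_inv_mem hτ)
          exact absurd (neg_eq_zero.1 h4) (pow_ne_zero _ h5)
        · exact hsq h4
      · exact h3
    have hb : ∀ ρ ∈ R, ∃ C : ℝ, ∀ τ : ℂ, 1 / 2 ≤ τ.im →
        ‖f ρ τ‖ ≤ C * Real.exp (-(2 * Real.pi * (-1 / 2) * τ.im)) := by
      intro ρ hρ
      have hnt : ∀ ρ, NT G ρ → ∃ C : ℝ, 0 ≤ C ∧ ∀ τ : ℂ, 1 / 2 ≤ τ.im →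
        ‖f ρ τ‖ ≤ C * Real.exp (-(2 * Real.pi * (-1 / 2) * τ.im)) := by
        intro ρ hρ
        obtain ⟨C, hC⟩ := hb1 ρ hρ
        refine ⟨max C 0, le_max_right _ _, fun τ hτ => ?_⟩
        rw [show -(2 * Real.pi * (-1 / 2) * τ.im) = Real.pi * τ.im by ring]
        exact (hC τ hτ).trans (mul_le_mul_of_nonneg_right (le_max_left _ _) (Real.exp_pos _).le)
      by_cases hρ0 : NT G ρ
      · obtain ⟨C, _, hC⟩ := hnt ρ hρ0
        exact ⟨C, hC⟩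
      · -- all others are nontrivial
        unfold NT at hρ0
        push Not at hρ0
        have hoth : ∀ σ : {σ // σ ∈ R.erase ρ}, NT G σ := by
          rintro ⟨σ, hσ⟩ ⟨w, hw⟩
          rw [Finset.mem_erase] at hσ
          apply hσ.1
          obtain ⟨v, hv⟩ := hρ0
          refine rep_unique hR (μ := 0) hσ.2 ⟨-w, ?_⟩ hρ ⟨-v, ?_⟩
          · rw [Matrix.mulVec_neg, ← hw]; simp
          · rw [Matrix.mulVec_neg, ← hv]; simp
        choose C hC0 hC using fun σ : {σ // σ ∈ R.erase ρ} => hnt σ (hoth σ)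
        refine ⟨∑ σ, C σ, fun τ hτ => ?_⟩
        have hup : τ ∈ Up := by change 0 < τ.im; linarith
        have h1 := hrel τ hup
        rw [← Finset.add_sum_erase _ _ hρ] at h1
        have hee : ‖ee (-(bd G μ ρ : ℂ))‖ = 1 := by
          have := norm_ee_real (-(bd G μ ρ))
          push_cast at this
          exact this
        have h2 : ‖f ρ τ‖ = ‖∑ σ ∈ R.erase ρ, ee (-(bd G μ σ : ℂ)) * f σ τ‖ := by
          have h3 : ee (-(bd G μ ρ : ℂ)) * f ρ τ =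
              -∑ σ ∈ R.erase ρ, ee (-(bd G μ σ : ℂ)) * f σ τ := by
            linear_combination h1
          have h4 := congrArg norm h3
          rw [norm_mul, hee, one_mul, norm_neg] at h4
          exact h4
        rw [h2, Finset.sum_mul]
        refine (norm_sum_le _ _).trans ?_
        rw [← Finset.sum_coe_sort (R.erase ρ)]
        apply Finset.sum_le_sum
        intro σ _
        have hee' : ‖ee (-(bd G μ σ : ℂ))‖ = 1 := by
          have := norm_ee_real (-(bd G μ σ))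
          push_cast at this
          exact this
        rw [norm_mul, hee', one_mul]
        exact hC σ τ hτ
    have hzR : ∀ τ ∈ Up, ∀ i : R, f i τ = 0 := by
      intro τ hτ i
      have k1 : -((10 : ℕ) : ℝ) / 12 < (-1 / 2 : ℝ) := by norm_num
      have k2 : ∀ μ, ∀ τ ∈ Up, ‖f μ (τ + 1)‖ = ‖f μ τ‖ := by
        intro μ τ hτ
        rw [hT μ τ hτ, norm_mul]
        have : ‖ee (-((bd G μ μ : ℂ) / 2))‖ = 1 := by
          have := norm_ee_real (-(bd G μ μ / 2))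
          push_cast at this
          exact this
        rw [this, one_mul]
      have k3 : ∀ τ ∈ Up, ‖τ‖ ^ (2 * 10) * ∑ i : R, ‖f i (-1 / τ)‖ ^ 2 =
          ∑ i : R, ‖f i τ‖ ^ 2 := by
        intro τ hτ
        exact norm_S (g := f) hG hR 10 (fun μ => hf.S μ τ hτ)
      exact VV_reps R 10 (-1 / 2) f k1 hd k2 k3 hb τ hτ i
    obtain ⟨μ', τ, hτ, hne⟩ := hne
    apply hne
    obtain ⟨v, hv⟩ := rep_spec hR μ'
    rw [hv, hf.inv _ v τ hτ]
    exact hzR τ hτ ⟨rep hR μ', rep_mem hR μ'⟩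
  refine ⟨?_, ?_⟩
  · intro μ hμ
    have h1 : ¬ rex (bd G μ μ) < -1 / 2 := fun h => hnv μ hμ (hsmall μ hμ h)
    have h2 : rex (bd G μ μ) = -1 / 2 := le_antisymm (rex_le _) (not_lt.1 h1)
    unfold rex at h2
    refine ⟨⌊bd G μ μ / 2 - 1 / 2⌋, ?_⟩
    linarith
  · intro hdet
    -- unimodular: the scalar form vanishes
    have hcard := card_reps hG hR
    rw [hdet] at hcard
    have hc1 : R.card = 1 := by exact_mod_cast hcard
    obtain ⟨ρ, hρ⟩ := Finset.card_eq_one.1 hc1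
    obtain ⟨v, hv⟩ := rep_spec hR 0
    have hall : ∀ σ ∈ R, σ = ρ := by
      intro σ hσ
      rw [hρ] at hσ
      exact Finset.mem_singleton.1 hσ
    have hρ0 : rep hR 0 = ρ := hall _ (rep_mem hR 0)
    rw [hρ0] at hv
    have h1 : ∀ τ ∈ Up, f ρ τ = f 0 τ := by
      intro τ hτ
      rw [hv]
      exact (hf.inv ρ v τ hτ).symm
    have h2 : ∀ τ ∈ Up, f 0 τ = 0 := by
      apply scalar_zero
      · intro τ hτ
        rw [hT 0 τ hτ, bd_zero_right]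
        simp [ee]
      · intro τ hτ
        rw [hf.S 0 τ hτ, hρ, hdet]
        simp only [Finset.sum_singleton, Int.cast_one, Real.sqrt_one, Complex.ofReal_one, div_one]
        rw [h1 _ (neg_inv_mem hτ)]
        have : bd G 0 ρ = 0 := by rw [bd_comm hG, bd_zero_right]
        rw [this]
        simp [ee]
    obtain ⟨μ', τ, hτ, hne⟩ := hne
    apply hne
    obtain ⟨w, hw⟩ := rep_spec hR μ'
    have hρ' : rep hR μ' = ρ := hall _ (rep_mem hR μ')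
    rw [hw, hf.inv _ w τ hτ, hρ', h1 τ hτ, h2 τ hτ]

end

end Pool.Agent.U578.RL
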